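import Pool.Agent.ABO.Sound

/-!
# A satisfying assignment gives a Type-A order of the graph of `φ`
-/

namespace Pool.Agent.ABO

open Pool.Agent.TM2Lib Pool.Agent.GridW
open Pool.Agent.H17T3S (Lit Cl CNF3 Holds Satisfiable SAT3 Graph adjLists vars)

/-- truth of a literal -/
def tr (τ : ℕ → Bool) (l : Lit) : Bool := τ l.1 == l.2

/-- ranks of `Q`, `C 0`, `C 1`, `C 2`, depending on which literals are true -/
def tab : Bool → Bool → Bool → ℕ × ℕ × ℕ × ℕ
  | true, true, true => (5, 6, 7, 8)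
  | true, _, false => (6, 8, 5, 7)
  | true, false, true => (6, 8, 7, 5)
  | false, _, true => (6, 7, 5, 8)
  | false, _, false => (6, 7, 8, 5)

/-- table of a clause -/
def ctab (τ : ℕ → Bool) (c : Cl) : ℕ × ℕ × ℕ × ℕ :=
  tab (tr τ (c.lit 0)) (tr τ (c.lit 1)) (tr τ (c.lit 2))

/-- the ranks -/
def rk (τ : ℕ → Bool) : Nm → ℕ
  | .X l => if tr τ l then 4 else 2
  | .H _ _ => 3
  | .K _ _ r => if r = 0 then 0 else if r = 1 then 1 else 100
  | .W c i => if tr τ (c.lit i) then 2 else 20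
  | .C c i => if i = 0 then (ctab τ c).2.1 else if i = 1 then (ctab τ c).2.2.1
      else (ctab τ c).2.2.2
  | .Q c => (ctab τ c).1
  | .U _ => 16
  | .V _ r => if r = 0 then 0 else if r = 1 then 1 else 100

theorem rk_K0 (τ : ℕ → Bool) (c : Cl) (i : Fin 3) : rk τ (.K c i 0) = 0 := rfl
theorem rk_K1 (τ : ℕ → Bool) (c : Cl) (i : Fin 3) : rk τ (.K c i 1) = 1 := rfl
theorem rk_K2 (τ : ℕ → Bool) (c : Cl) (i : Fin 3) : rk τ (.K c i 2) = 100 := rfl
theorem rk_V0 (τ : ℕ → Bool) (c : Cl) : rk τ (.V c 0) = 0 := rfl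
theorem rk_V1 (τ : ℕ → Bool) (c : Cl) : rk τ (.V c 1) = 1 := rfl
theorem rk_V2 (τ : ℕ → Bool) (c : Cl) : rk τ (.V c 2) = 100 := rfl
theorem rk_H (τ : ℕ → Bool) (c : Cl) (i : Fin 3) : rk τ (.H c i) = 3 := rfl
theorem rk_U (τ : ℕ → Bool) (c : Cl) : rk τ (.U c) = 16 := rfl
theorem rk_X (τ : ℕ → Bool) (l : Lit) : rk τ (.X l) = if tr τ l then 4 else 2 := rfl
theorem rk_W (τ : ℕ → Bool) (c : Cl) (i : Fin 3) :
    rk τ (.W c i) = if tr τ (c.lit i) then 2 else 20 := rfl
theorem rk_Q (τ : ℕ → Bool) (c : Cl) :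
    rk τ (.Q c) = (tab (tr τ (c.lit 0)) (tr τ (c.lit 1)) (tr τ (c.lit 2))).1 := rfl
theorem rk_C0 (τ : ℕ → Bool) (c : Cl) :
    rk τ (.C c 0) = (tab (tr τ (c.lit 0)) (tr τ (c.lit 1)) (tr τ (c.lit 2))).2.1 := rfl
theorem rk_C1 (τ : ℕ → Bool) (c : Cl) :
    rk τ (.C c 1) = (tab (tr τ (c.lit 0)) (tr τ (c.lit 1)) (tr τ (c.lit 2))).2.2.1 := rfl
theorem rk_C2 (τ : ℕ → Bool) (c : Cl) :
    rk τ (.C c 2) = (tab (tr τ (c.lit 0)) (tr τ (c.lit 1)) (tr τ (c.lit 2))).2.2.2 := rfl

theorem tr_neg (τ : ℕ → Bool) (l : Lit) : tr τ (neg l) = !(tr τ l) := by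
  obtain ⟨z, b⟩ := l
  simp only [tr, neg]
  cases τ z <;> cases b <;> rfl

theorem X_adj {l l' : Lit} (h : NG.Adj (.X l) (.X l')) : l' = neg l := by
  change Nm.adj _ _ = true at h
  simp only [Nm.adj, Nm.arc, Bool.or_eq_true, decide_eq_true_eq] at h
  obtain ⟨z, b⟩ := l
  obtain ⟨z', b'⟩ := l'
  rcases h with ⟨h4, h5⟩ | ⟨h4, h5⟩
  · simp only at h4 h5
    subst h4
    cases b <;> cases b' <;> simp_all [neg]
  · simp only at h4 h5
    subst h4
    cases b <;> cases b' <;> simp_all [neg]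

theorem rk_ne_local (τ : ℕ → Bool) {x y : Nm} {c : Cl} (hx : x.cl = some c) (hy : y ∈ nb x) :
    rk τ x ≠ rk τ y := by
  cases x with
  | X l => simp [Nm.cl] at hx
  | H c' i =>
    simp only [nb, List.mem_cons, List.not_mem_nil, or_false] at hy
    rcases hy with rfl | rfl | rfl | rfl | rfl <;> simp only [rk] <;> (try split_ifs) <;> omega
  | K c' i r =>
    simp only [nb, List.mem_cons, List.not_mem_nil, or_false] at hy
    fin_cases r <;> rcases hy with rfl | rfl | rfl <;> simp [rk]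
  | W c' i =>
    simp only [nb, List.mem_cons, List.not_mem_nil, or_false] at hy
    rcases hy with rfl | rfl | rfl
    · simp only [rk]; split_ifs <;> omega
    · simp only [rk]; split_ifs <;> omega
    · have : 5 ≤ rk τ (.C c' i) ∧ rk τ (.C c' i) ≤ 8 := by
        simp only [rk, ctab]
        cases tr τ (c'.lit 0) <;> cases tr τ (c'.lit 1) <;> cases tr τ (c'.lit 2) <;>
          simp only [tab] <;> split_ifs <;> omega
      have h2 : rk τ (.W c' i) = 2 ∨ rk τ (.W c' i) = 20 := by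
        simp only [rk]; split_ifs <;> simp
      omega
  | C c' i =>
    have h2 : ∀ j, rk τ (.W c' j) = 2 ∨ rk τ (.W c' j) = 20 := by
      intro j; simp only [rk]; split_ifs <;> simp
    have h3 : ∀ j, 5 ≤ rk τ (.C c' j) ∧ rk τ (.C c' j) ≤ 8 := by
      intro j
      simp only [rk, ctab]
      cases tr τ (c'.lit 0) <;> cases tr τ (c'.lit 1) <;> cases tr τ (c'.lit 2) <;>
        simp only [tab] <;> split_ifs <;> omega
    fin_cases i
    · have hy' : y ∈ [Nm.W c' 0, .C c' 1, .C c' 2] := hy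
      simp only [List.mem_cons, List.not_mem_nil, or_false] at hy'
      rcases hy' with rfl | rfl | rfl
      · have := h2 0; have := h3 0
        change rk τ (.C c' 0) ≠ _
        omega
      · change rk τ (.C c' 0) ≠ _
        simp only [rk, ctab]
        cases tr τ (c'.lit 0) <;> cases tr τ (c'.lit 1) <;> cases tr τ (c'.lit 2) <;> simp [tab]
      · change rk τ (.C c' 0) ≠ _
        simp only [rk, ctab]
        cases tr τ (c'.lit 0) <;> cases tr τ (c'.lit 1) <;> cases tr τ (c'.lit 2) <;> simp [tab]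
    · have hy' : y ∈ [Nm.W c' 1, .C c' 0, .Q c'] := hy
      simp only [List.mem_cons, List.not_mem_nil, or_false] at hy'
      rcases hy' with rfl | rfl | rfl
      · have := h2 1; have := h3 1
        change rk τ (.C c' 1) ≠ _
        omega
      · change rk τ (.C c' 1) ≠ _
        simp only [rk, ctab]
        cases tr τ (c'.lit 0) <;> cases tr τ (c'.lit 1) <;> cases tr τ (c'.lit 2) <;> simp [tab]
      · change rk τ (.C c' 1) ≠ _
        simp only [rk, ctab]
        cases tr τ (c'.lit 0) <;> cases tr τ (c'.lit 1) <;> cases tr τ (c'.lit 2) <;> simp [tab]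
    · have hy' : y ∈ [Nm.W c' 2, .C c' 0, .Q c'] := hy
      simp only [List.mem_cons, List.not_mem_nil, or_false] at hy'
      rcases hy' with rfl | rfl | rfl
      · have := h2 2; have := h3 2
        change rk τ (.C c' 2) ≠ _
        omega
      · change rk τ (.C c' 2) ≠ _
        simp only [rk, ctab]
        cases tr τ (c'.lit 0) <;> cases tr τ (c'.lit 1) <;> cases tr τ (c'.lit 2) <;> simp [tab]
      · change rk τ (.C c' 2) ≠ _
        simp only [rk, ctab]
        cases tr τ (c'.lit 0) <;> cases tr τ (c'.lit 1) <;> cases tr τ (c'.lit 2) <;> simp [tab]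
  | Q c' =>
    simp only [nb, List.mem_cons, List.not_mem_nil, or_false] at hy
    rcases hy with rfl | rfl | rfl
    all_goals
      simp only [rk, ctab]
      cases tr τ (c'.lit 0) <;> cases tr τ (c'.lit 1) <;> cases tr τ (c'.lit 2) <;> simp [tab]
  | U c' =>
    simp only [nb, List.mem_cons, List.not_mem_nil, or_false] at hy
    rcases hy with rfl | rfl | rfl | rfl
    · simp only [rk, ctab]
      cases tr τ (c'.lit 0) <;> cases tr τ (c'.lit 1) <;> cases tr τ (c'.lit 2) <;> simp [tab]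
    all_goals simp [rk]
  | V c' r =>
    simp only [nb, List.mem_cons, List.not_mem_nil, or_false] at hy
    fin_cases r <;> rcases hy with rfl | rfl | rfl <;> simp [rk]

theorem cnt_ok (τ : ℕ → Bool) {x : Nm} {c : Cl} (hx : x.cl = some c)
    (hc : tr τ (c.lit 0) = true ∨ tr τ (c.lit 1) = true ∨ tr τ (c.lit 2) = true) :
    Odd (cnt (rk τ) x) ∨ cnt (rk τ) x = 0 := by
  have key : cnt (rk τ) x = 0 ∨ cnt (rk τ) x = 1 ∨ cnt (rk τ) x = 3 → 
      Odd (cnt (rk τ) x) ∨ cnt (rk τ) x = 0 := by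
    rintro (h | h | h)
    · exact Or.inr h
    · left; rw [h]; decide
    · left; rw [h]; decide
  apply key
  cases x with
  | X l => simp [Nm.cl] at hx
  | H c' i =>
    have e : nb (.H c' i) = [.X (c'.lit i), .W c' i, .K c' i 0, .K c' i 1, .K c' i 2] := rfl
    rw [cnt5 e, rk_K0, rk_K1, rk_K2, rk_H, rk_X, rk_W]
    generalize tr τ (c'.lit i) = a
    revert a
    decide
  | K c' i r =>
    fin_cases r
    · have e : nb (.K c' i 0) = [.H c' i, .K c' i 1, .K c' i 2] := rfl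
      change cnt (rk τ) (.K c' i 0) = 0 ∨ cnt (rk τ) (.K c' i 0) = 1 ∨ cnt (rk τ) (.K c' i 0) = 3
      rw [cnt3 e]; simp [rk]
    · have e : nb (.K c' i 1) = [.H c' i, .K c' i 2, .K c' i 0] := rfl
      change cnt (rk τ) (.K c' i 1) = 0 ∨ cnt (rk τ) (.K c' i 1) = 1 ∨ cnt (rk τ) (.K c' i 1) = 3
      rw [cnt3 e]; simp [rk]
    · have e : nb (.K c' i 2) = [.H c' i, .K c' i 0, .K c' i 1] := rfl
      change cnt (rk τ) (.K c' i 2) = 0 ∨ cnt (rk τ) (.K c' i 2) = 1 ∨ cnt (rk τ) (.K c' i 2) = 3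
      rw [cnt3 e]; simp [rk]
  | W c' i =>
    have e : nb (.W c' i) = [.X (c'.lit i), .H c' i, .C c' i] := rfl
    rw [cnt3 e]
    have h3 : 5 ≤ rk τ (.C c' i) ∧ rk τ (.C c' i) ≤ 8 := by
      simp only [rk, ctab]
      cases tr τ (c'.lit 0) <;> cases tr τ (c'.lit 1) <;> cases tr τ (c'.lit 2) <;>
        simp only [tab] <;> split_ifs <;> omega
    obtain ⟨h3, h4⟩ := h3
    cases h : tr τ (c'.lit i)
    · have e1 : rk τ (.W c' i) = 20 := by simp [rk, h]
      have e2 : rk τ (.X (c'.lit i)) = 2 := by simp [rk, h]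
      have e3 : rk τ (.H c' i) = 3 := rfl
      rw [e1, e2, e3, if_pos (by omega), if_pos (by omega), if_pos (by omega)]
      simp
    · have e1 : rk τ (.W c' i) = 2 := by simp [rk, h]
      have e2 : rk τ (.X (c'.lit i)) = 4 := by simp [rk, h]
      have e3 : rk τ (.H c' i) = 3 := rfl
      rw [e1, e2, e3, if_neg (by omega), if_neg (by omega), if_neg (by omega)]
      simp
  | C c' i =>
    simp only [Nm.cl, Option.some.injEq] at hx
    subst hx
    fin_cases i
    · have e : nb (.C c' 0) = [.W c' 0, .C c' 1, .C c' 2] := rfl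
      change cnt (rk τ) (.C c' 0) = 0 ∨ cnt (rk τ) (.C c' 0) = 1 ∨ cnt (rk τ) (.C c' 0) = 3
      rw [cnt3 e, rk_W, rk_C0, rk_C1, rk_C2]
      revert hc
      generalize tr τ (c'.lit 0) = a
      generalize tr τ (c'.lit 1) = b
      generalize tr τ (c'.lit 2) = d
      revert a b d
      decide
    · have e : nb (.C c' 1) = [.W c' 1, .C c' 0, .Q c'] := rfl
      change cnt (rk τ) (.C c' 1) = 0 ∨ cnt (rk τ) (.C c' 1) = 1 ∨ cnt (rk τ) (.C c' 1) = 3
      rw [cnt3 e, rk_W, rk_C0, rk_C1, rk_Q]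
      revert hc
      generalize tr τ (c'.lit 0) = a
      generalize tr τ (c'.lit 1) = b
      generalize tr τ (c'.lit 2) = d
      revert a b d
      decide
    · have e : nb (.C c' 2) = [.W c' 2, .C c' 0, .Q c'] := rfl
      change cnt (rk τ) (.C c' 2) = 0 ∨ cnt (rk τ) (.C c' 2) = 1 ∨ cnt (rk τ) (.C c' 2) = 3
      rw [cnt3 e, rk_W, rk_C0, rk_C2, rk_Q]
      revert hc
      generalize tr τ (c'.lit 0) = a
      generalize tr τ (c'.lit 1) = b
      generalize tr τ (c'.lit 2) = d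
      revert a b d
      decide
  | Q c' =>
    simp only [Nm.cl, Option.some.injEq] at hx
    subst hx
    have e : nb (.Q c') = [.C c' 1, .C c' 2, .U c'] := rfl
    rw [cnt3 e, rk_C1, rk_C2, rk_Q, rk_U]
    generalize tr τ (c'.lit 0) = a
    generalize tr τ (c'.lit 1) = b
    generalize tr τ (c'.lit 2) = d
    clear hc
    revert a b d
    decide
  | U c' =>
    have e : nb (.U c') = [.Q c', .V c' 0, .V c' 1, .V c' 2] := rfl
    rw [cnt4 e, rk_V0, rk_V1, rk_V2, rk_Q, rk_U]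
    generalize tr τ (c'.lit 0) = a
    generalize tr τ (c'.lit 1) = b
    generalize tr τ (c'.lit 2) = d
    clear hc
    revert a b d
    decide
  | V c' r =>
    fin_cases r
    · have e : nb (.V c' 0) = [.U c', .V c' 1, .V c' 2] := rfl
      change cnt (rk τ) (.V c' 0) = 0 ∨ cnt (rk τ) (.V c' 0) = 1 ∨ cnt (rk τ) (.V c' 0) = 3
      rw [cnt3 e]; simp [rk]
    · have e : nb (.V c' 1) = [.U c', .V c' 2, .V c' 0] := rfl
      change cnt (rk τ) (.V c' 1) = 0 ∨ cnt (rk τ) (.V c' 1) = 1 ∨ cnt (rk τ) (.V c' 1) = 3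
      rw [cnt3 e]; simp [rk]
    · have e : nb (.V c' 2) = [.U c', .V c' 0, .V c' 1] := rfl
      change cnt (rk τ) (.V c' 2) = 0 ∨ cnt (rk τ) (.V c' 2) = 1 ∨ cnt (rk τ) (.V c' 2) = 3
      rw [cnt3 e]; simp [rk]

/-- the neighbours of `X l` -/
theorem X_nb {φ : CNF3} {l : Lit} {y : Nm} (hl : l.1 ∈ vars φ) :
    (y ∈ verts φ ∧ NG.Adj (.X l) y) ↔ y = .X (neg l) ∨
      ∃ c i, c ∈ φ ∧ c.lit i = l ∧ (y = .H c i ∨ y = .W c i) := by
  constructor
  · rintro ⟨h1, h2⟩
    cases y with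
    | X l' => left; rw [X_adj h2]
    | H c i =>
      right
      change Nm.adj _ _ = true at h2
      simp only [Nm.adj, Nm.arc, Bool.false_or, decide_eq_true_eq] at h2
      exact ⟨c, i, (mem_of_cl rfl).1 h1, h2, Or.inl rfl⟩
    | W c i =>
      right
      change Nm.adj _ _ = true at h2
      simp only [Nm.adj, Nm.arc, Bool.false_or, decide_eq_true_eq] at h2
      exact ⟨c, i, (mem_of_cl rfl).1 h1, h2, Or.inr rfl⟩
    | K c i r => change Nm.adj _ _ = true at h2; simp [Nm.adj, Nm.arc] at h2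
    | C c i => change Nm.adj _ _ = true at h2; simp [Nm.adj, Nm.arc] at h2
    | Q c => change Nm.adj _ _ = true at h2; simp [Nm.adj, Nm.arc] at h2
    | U c => change Nm.adj _ _ = true at h2; simp [Nm.adj, Nm.arc] at h2
    | V c r => change Nm.adj _ _ = true at h2; simp [Nm.adj, Nm.arc] at h2
  · rintro (rfl | ⟨c, i, hc, hl', rfl | rfl⟩)
    · exact ⟨X_mem.2 hl, adj_neg l⟩
    · refine ⟨(mem_of_cl rfl).2 hc, ?_⟩
      change Nm.adj _ _ = true
      simp [Nm.adj, Nm.arc, hl']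
    · refine ⟨(mem_of_cl rfl).2 hc, ?_⟩
      change Nm.adj _ _ = true
      simp [Nm.adj, Nm.arc, hl']

theorem X_ok (φ : CNF3) (τ : ℕ → Bool) {l : Lit} (hl : l.1 ∈ vars φ) :
    Odd (pre φ (rk τ) (.X l)).ncard ∨ (pre φ (rk τ) (.X l)).ncard = 0 := by
  classical
  cases h : tr τ l
  · right
    rw [Set.ncard_eq_zero (pre_finite φ _ _)]
    ext y
    simp only [Set.mem_empty_iff_false, iff_false]
    rintro ⟨h1, h2, h3⟩
    have e : rk τ (.X l) = 2 := by simp [rk, h]
    rw [e] at h3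
    rcases (X_nb hl).1 ⟨h1, h2⟩ with rfl | ⟨c, i, hc, hl', rfl | rfl⟩
    · have : rk τ (.X (neg l)) = 4 := by simp [rk, tr_neg, h]
      omega
    · have : rk τ (.H c i) = 3 := rfl
      omega
    · have : rk τ (.W c i) = 20 := by simp [rk, hl', h]
      omega
  · left
    set A : Set Nm := {y | ∃ c i, c ∈ φ ∧ c.lit i = l ∧ y = .H c i} with hA
    have e : rk τ (.X l) = 4 := by simp [rk, h]
    have hpre : pre φ (rk τ) (.X l) = insert (.X (neg l)) (A ∪ swp '' A) := by
      ext y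
      constructor
      · rintro ⟨h1, h2, h3⟩
        rcases (X_nb hl).1 ⟨h1, h2⟩ with rfl | ⟨c, i, hc, hl', rfl | rfl⟩
        · exact Or.inl rfl
        · exact Or.inr (Or.inl ⟨c, i, hc, hl', rfl⟩)
        · exact Or.inr (Or.inr ⟨.H c i, ⟨c, i, hc, hl', rfl⟩, rfl⟩)
      · rintro (rfl | ⟨c, i, hc, hl', rfl⟩ | ⟨_, ⟨c, i, hc, hl', rfl⟩, rfl⟩)
        · obtain ⟨h1, h2⟩ := (X_nb (φ := φ) (y := .X (neg l)) hl).2 (Or.inl rfl)
          refine ⟨h1, h2, ?_⟩
          rw [e]
          have : rk τ (.X (neg l)) = 2 := by simp [rk, tr_neg, h]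
          omega
        · obtain ⟨h1, h2⟩ := (X_nb (φ := φ) (y := .H c i) hl).2
            (Or.inr ⟨c, i, hc, hl', Or.inl rfl⟩)
          refine ⟨h1, h2, ?_⟩
          rw [e]
          have : rk τ (.H c i) = 3 := rfl
          omega
        · obtain ⟨h1, h2⟩ := (X_nb (φ := φ) (y := .W c i) hl).2
            (Or.inr ⟨c, i, hc, hl', Or.inr rfl⟩)
          refine ⟨h1, h2, ?_⟩
          rw [e]
          change rk τ (.W c i) < 4
          have : rk τ (.W c i) = 2 := by simp [rk, hl', h]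
          omega
    have hfin : (pre φ (rk τ) (.X l)).Finite := pre_finite φ _ _
    have hfin1 : (A ∪ swp '' A).Finite := hfin.subset (by rw [hpre]; exact Set.subset_insert _ _)
    have hfinA : A.Finite := hfin1.subset Set.subset_union_left
    have hdisj : Disjoint A (swp '' A) := by
      rw [Set.disjoint_left]
      rintro y ⟨c, i, -, -, rfl⟩ ⟨x, ⟨c', i', -, -, rfl⟩, h⟩
      cases h
    have hinj : Set.InjOn swp A := by
      rintro x ⟨c, i, -, -, rfl⟩ y ⟨c', i', -, -, rfl⟩ h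
      simp only [swp, Nm.W.injEq] at h
      rw [h.1, h.2]
    have hnot : Nm.X (neg l) ∉ A ∪ swp '' A := by
      rintro (⟨c, i, -, -, h⟩ | ⟨x, ⟨c', i', -, -, rfl⟩, h⟩)
      · cases h
      · cases h
    rw [hpre, Set.ncard_insert_of_notMem hnot hfin1, Set.ncard_union_eq hdisj hfinA
      (hfinA.image _), hinj.ncard_image]
    exact ⟨A.ncard, by ring⟩

/-- **Completeness of the reduction.** -/
theorem complete {φ : CNF3} (h : Satisfiable φ) : ∃ σ, IsTypeA (gr φ).2 σ := by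
  obtain ⟨τ, hτ⟩ := h
  have hX : ∀ x ∈ verts φ, (∃ l : Lit, l.1 ∈ vars φ ∧ x = .X l) ∨ ∃ c ∈ φ, x.cl = some c :=
    fun x hx => mem_verts.1 hx
  refine typeA_gr (rk τ) ?_ ?_
  · intro x hx y hy hxy
    rcases hX x hx with ⟨l, hl, rfl⟩ | ⟨c, hc, hxc⟩
    · rcases hX y hy with ⟨l', hl', rfl⟩ | ⟨c, hc, hyc⟩
      · rw [X_adj hxy]
        simp only [rk, tr_neg]
        cases tr τ l <;> simp
      · exact (rk_ne_local τ hyc ((mem_nb hyc).1 hxy.symm)).symm
    · exact rk_ne_local τ hxc ((mem_nb hxc).1 hxy)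
  · intro x hx
    rcases hX x hx with ⟨l, hl, rfl⟩ | ⟨c, hc, hxc⟩
    · exact X_ok φ τ hl
    · rw [ncard_pre hc hxc]
      refine cnt_ok τ hxc ?_
      have h1 := hτ c hc
      unfold Holds at h1
      simp only [tr, beq_iff_eq]
      exact h1

end Pool.Agent.ABO
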