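import Pool.Agent.helper17.T3S.Defs

/-!
# Type-A and Type-B vertex orders; the graph of a 3-CNF formula
-/

namespace Pool.Agent.ABO

open Pool.Agent.TM2Lib Pool.Agent.GridW
open Pool.Agent.H17T3S (Lit Cl CNF3 Holds Satisfiable SAT3 Graph adjLists vars)
open Pool.Agent.H17T3S.Cl (lit)

/-! ### vertex orders -/

/-- number of neighbours of `v` placed before `v`; `σ v` is the position of `v` -/
noncomputable def dm {n : ℕ} (G : SimpleGraph (Fin n)) (σ : Equiv.Perm (Fin n)) (v : Fin n) : ℕ :=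
  {u | G.Adj v u ∧ σ u < σ v}.ncard

/-- number of neighbours of `v` placed after `v` -/
noncomputable def dp {n : ℕ} (G : SimpleGraph (Fin n)) (σ : Equiv.Perm (Fin n)) (v : Fin n) : ℕ :=
  {u | G.Adj v u ∧ σ v < σ u}.ncard

/-- Type-A orders -/
def IsTypeA {n : ℕ} (G : SimpleGraph (Fin n)) (σ : Equiv.Perm (Fin n)) : Prop :=
  ∀ v, Odd (dm G σ v) ∨ dm G σ v = 0

/-- Type-B orders -/
def IsTypeB {n : ℕ} (G : SimpleGraph (Fin n)) (σ : Equiv.Perm (Fin n)) : Prop :=
  ∀ v, (Odd (dm G σ v) ∨ dm G σ v = 0) ∨ (Even (dm G σ v) ∧ dp G σ v = 0)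

theorem IsTypeA.isTypeB {n : ℕ} {G : SimpleGraph (Fin n)} {σ : Equiv.Perm (Fin n)}
    (h : IsTypeA G σ) : IsTypeB G σ := fun v => Or.inl (h v)

/-! ### the graph of a formula -/

/-- Names of vertices: `X l` belongs to the literal `l`, `H c i, K c i r, W c i` to the `i`-th
literal of the clause `c`, and `C c i, Q c, U c, V c r` to the clause `c`. -/
inductive Nm : Type
  | X (l : Lit) : Nm
  | H (c : Cl) (i : Fin 3) : Nm
  | K (c : Cl) (i : Fin 3) (r : Fin 3) : Nm
  | W (c : Cl) (i : Fin 3) : Nm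
  | C (c : Cl) (i : Fin 3) : Nm
  | Q (c : Cl) : Nm
  | U (c : Cl) : Nm
  | V (c : Cl) (r : Fin 3) : Nm
deriving DecidableEq

/-- oriented edges between names -/
def Nm.arc : Nm → Nm → Bool
  | .X l, .X l' => decide (l.1 = l'.1 ∧ l.2 ≠ l'.2)
  | .H c i, .X l => decide (c.lit i = l)
  | .W c i, .X l => decide (c.lit i = l)
  | .H c i, .W c' j => decide (c = c' ∧ i = j)
  | .H c i, .K c' j _ => decide (c = c' ∧ i = j)
  | .K c i r, .K c' j s => decide (c = c' ∧ i = j ∧ r ≠ s)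
  | .W c i, .C c' j => decide (c = c' ∧ i = j)
  | .C c i, .C c' j => decide (c = c' ∧ i = 0 ∧ j ≠ 0)
  | .Q c, .C c' j => decide (c = c' ∧ j ≠ 0)
  | .Q c, .U c' => decide (c = c')
  | .U c, .V c' _ => decide (c = c')
  | .V c r, .V c' s => decide (c = c' ∧ r ≠ s)
  | _, _ => false

/-- adjacency of names -/
def Nm.adj (u v : Nm) : Bool := u.arc v || v.arc u

/-- the infinite graph of all names -/
def NG : SimpleGraph Nm where
  Adj u v := u.adj v = true
  symm := ⟨fun u v h => by rw [Nm.adj, Bool.or_comm]; exact h⟩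
  loopless := ⟨fun u h => by
    cases u <;> simp [Nm.adj, Nm.arc] at h⟩

/-- the vertices of a clause -/
def cverts (c : Cl) : List Nm :=
  [.H c 0, .H c 1, .H c 2,
   .K c 0 0, .K c 0 1, .K c 0 2, .K c 1 0, .K c 1 1, .K c 1 2, .K c 2 0, .K c 2 1, .K c 2 2,
   .W c 0, .W c 1, .W c 2, .C c 0, .C c 1, .C c 2, .Q c, .U c, .V c 0, .V c 1, .V c 2]

/-- the vertices of the graph of `φ` -/
def verts (φ : CNF3) : List Nm :=
  (vars φ).flatMap (fun z => [.X (z, true), .X (z, false)]) ++ φ.dedup.flatMap cverts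

/-- the graph of `φ` -/
def gr (φ : CNF3) : Graph := ⟨(verts φ).length, NG.comap (verts φ).get⟩

end Pool.Agent.ABO
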