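import Pool.Agent.ABO.Defs

/-!
# Orders and rank functions
-/

namespace Pool.Agent.ABO

open Pool.Agent.TM2Lib Pool.Agent.GridW
open Pool.Agent.H17T3S (Lit Cl CNF3 Holds Satisfiable SAT3 Graph adjLists vars)

/-- a rank function which separates adjacent vertices is induced by an order -/
theorem exists_order {n : ℕ} (G : SimpleGraph (Fin n)) (ρ : Fin n → ℕ)
    (h : ∀ u v, G.Adj u v → ρ u ≠ ρ v) :
    ∃ σ : Equiv.Perm (Fin n), ∀ u v, G.Adj u v → (σ u < σ v ↔ ρ u < ρ v) := by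
  refine ⟨(Tuple.sort ρ).symm, fun u v huv => ?_⟩
  have hm := Tuple.monotone_sort ρ
  have key : ∀ a b : Fin n, (Tuple.sort ρ).symm a ≤ (Tuple.sort ρ).symm b → ρ a ≤ ρ b := by
    intro a b hab
    have := hm hab
    simpa using this
  constructor
  · intro h1
    exact lt_of_le_of_ne (key u v h1.le) (h u v huv)
  · intro h1
    by_contra h2
    exact absurd (key v u (not_lt.1 h2)) (not_le.2 h1)

/-- Type-A orders from rank functions -/
theorem typeA_of_rank {n : ℕ} (G : SimpleGraph (Fin n)) (ρ : Fin n → ℕ)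
    (h : ∀ u v, G.Adj u v → ρ u ≠ ρ v)
    (h2 : ∀ v, Odd {u | G.Adj v u ∧ ρ u < ρ v}.ncard ∨ {u | G.Adj v u ∧ ρ u < ρ v}.ncard = 0) :
    ∃ σ, IsTypeA G σ := by
  obtain ⟨σ, hσ⟩ := exists_order G ρ h
  refine ⟨σ, fun v => ?_⟩
  have : dm G σ v = {u | G.Adj v u ∧ ρ u < ρ v}.ncard := by
    unfold dm
    congr 1
    ext u
    simp only [Set.mem_ofPred_eq]
    constructor
    · rintro ⟨h3, h4⟩
      exact ⟨h3, (hσ u v h3.symm).1 h4⟩
    · rintro ⟨h3, h4⟩
      exact ⟨h3, (hσ u v h3.symm).2 h4⟩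
  rw [this]
  exact h2 v

/-- Type-B orders from rank functions -/
theorem typeB_of_rank {n : ℕ} (G : SimpleGraph (Fin n)) (ρ : Fin n → ℕ)
    (h : ∀ u v, G.Adj u v → ρ u ≠ ρ v)
    (h2 : ∀ v, (Odd {u | G.Adj v u ∧ ρ u < ρ v}.ncard ∨ {u | G.Adj v u ∧ ρ u < ρ v}.ncard = 0) ∨
      ∀ u, G.Adj v u → ρ u < ρ v) :
    ∃ σ, IsTypeB G σ := by
  obtain ⟨σ, hσ⟩ := exists_order G ρ h
  refine ⟨σ, fun v => ?_⟩
  have : dm G σ v = {u | G.Adj v u ∧ ρ u < ρ v}.ncard := by
    unfold dm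
    congr 1
    ext u
    simp only [Set.mem_ofPred_eq]
    constructor
    · rintro ⟨h3, h4⟩
      exact ⟨h3, (hσ u v h3.symm).1 h4⟩
    · rintro ⟨h3, h4⟩
      exact ⟨h3, (hσ u v h3.symm).2 h4⟩
  rcases h2 v with h3 | h3
  · left
    rw [this]
    exact h3
  · rcases Nat.even_or_odd (dm G σ v) with h4 | h4
    · right
      refine ⟨h4, ?_⟩
      unfold dp
      rw [Set.ncard_eq_zero (Set.toFinite _)]
      ext u
      simp only [Set.mem_ofPred_eq, Set.mem_empty_iff_false, iff_false, not_and, not_lt]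
      intro h5
      exact ((hσ u v h5.symm).2 (h3 u h5)).le
    · exact Or.inl (Or.inl h4)

/-- rank functions from orders -/
theorem typeA_rank {n : ℕ} {G : SimpleGraph (Fin n)} {σ : Equiv.Perm (Fin n)}
    (h : IsTypeA G σ) : (∀ u v, G.Adj u v → (σ u : ℕ) ≠ (σ v : ℕ)) ∧
    ∀ v, Odd {u | G.Adj v u ∧ (σ u : ℕ) < (σ v : ℕ)}.ncard ∨
      {u | G.Adj v u ∧ (σ u : ℕ) < (σ v : ℕ)}.ncard = 0 :=
  ⟨fun _ _ huv he => huv.ne (σ.injective (Fin.ext he)), fun v => h v⟩

theorem typeB_rank {n : ℕ} {G : SimpleGraph (Fin n)} {σ : Equiv.Perm (Fin n)}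
    (h : IsTypeB G σ) : (∀ u v, G.Adj u v → (σ u : ℕ) ≠ (σ v : ℕ)) ∧
    ∀ v, (Odd {u | G.Adj v u ∧ (σ u : ℕ) < (σ v : ℕ)}.ncard ∨
      {u | G.Adj v u ∧ (σ u : ℕ) < (σ v : ℕ)}.ncard = 0) ∨
      ∀ u, G.Adj v u → (σ u : ℕ) < (σ v : ℕ) := by
  refine ⟨fun _ _ huv he => huv.ne (σ.injective (Fin.ext he)), fun v => ?_⟩
  rcases h v with h1 | ⟨-, h1⟩
  · exact Or.inl h1
  · right
    intro u hu
    unfold dp at h1
    rw [Set.ncard_eq_zero (Set.toFinite _)] at h1
    by_contra h2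
    have h3 : u ∈ {u | G.Adj v u ∧ σ v < σ u} := by
      refine ⟨hu, ?_⟩
      rcases lt_trichotomy (σ u) (σ v) with h4 | h4 | h4
      · exact absurd h4 h2
      · exact absurd (σ.injective h4) hu.ne'
      · exact h4
    rw [h1] at h3
    exact h3

/-! ### the vertices of the graph of a formula -/

theorem mem_vars {φ : CNF3} {z : ℕ} : z ∈ vars φ ↔ ∃ c ∈ φ, ∃ i : Fin 3, (c.lit i).1 = z := by
  unfold vars
  rw [List.mem_dedup, List.mem_flatMap]
  constructor
  · rintro ⟨c, hc, h⟩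
    simp only [List.mem_cons, List.not_mem_nil, or_false] at h
    rcases h with h | h | h
    · exact ⟨c, hc, 0, h.symm⟩
    · exact ⟨c, hc, 1, h.symm⟩
    · exact ⟨c, hc, 2, h.symm⟩
  · rintro ⟨c, hc, i, h⟩
    refine ⟨c, hc, ?_⟩
    fin_cases i
    · simp only [List.mem_cons]; exact Or.inl h.symm
    · simp only [List.mem_cons]; exact Or.inr (Or.inl h.symm)
    · simp only [List.mem_cons]; exact Or.inr (Or.inr (Or.inl h.symm))

/-- the clause of a name -/
def Nm.cl : Nm → Option Cl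
  | .X _ => none
  | .H c _ => some c
  | .K c _ _ => some c
  | .W c _ => some c
  | .C c _ => some c
  | .Q c => some c
  | .U c => some c
  | .V c _ => some c

theorem mem_cverts {c : Cl} {x : Nm} : x ∈ cverts c ↔ x.cl = some c := by
  constructor
  · intro h
    simp only [cverts, List.mem_cons, List.not_mem_nil, or_false] at h
    rcases h with h | h | h | h | h | h | h | h | h | h | h | h | h | h | h | h | h | h | h |
      h | h | h | h <;> rw [h] <;> rfl
  · intro h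
    cases x with
    | X l => simp [Nm.cl] at h
    | H c' i => simp only [Nm.cl, Option.some.injEq] at h; subst h; fin_cases i <;> simp [cverts]
    | K c' i r =>
      simp only [Nm.cl, Option.some.injEq] at h; subst h
      fin_cases i <;> fin_cases r <;> simp [cverts]
    | W c' i => simp only [Nm.cl, Option.some.injEq] at h; subst h; fin_cases i <;> simp [cverts]
    | C c' i => simp only [Nm.cl, Option.some.injEq] at h; subst h; fin_cases i <;> simp [cverts]
    | Q c' => simp only [Nm.cl, Option.some.injEq] at h; subst h; simp [cverts]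
    | U c' => simp only [Nm.cl, Option.some.injEq] at h; subst h; simp [cverts]
    | V c' i => simp only [Nm.cl, Option.some.injEq] at h; subst h; fin_cases i <;> simp [cverts]

theorem nodup_cverts (c : Cl) : (cverts c).Nodup := by
  unfold cverts
  simp

theorem mem_verts {φ : CNF3} {x : Nm} : x ∈ verts φ ↔
    (∃ l : Lit, l.1 ∈ vars φ ∧ x = .X l) ∨ ∃ c ∈ φ, x.cl = some c := by
  unfold verts
  rw [List.mem_append, List.mem_flatMap, List.mem_flatMap]
  constructor
  · rintro (⟨z, hz, h⟩ | ⟨c, hc, h⟩)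
    · simp only [List.mem_cons, List.not_mem_nil, or_false] at h
      rcases h with h | h
      · exact Or.inl ⟨(z, true), hz, h⟩
      · exact Or.inl ⟨(z, false), hz, h⟩
    · exact Or.inr ⟨c, List.mem_dedup.1 hc, mem_cverts.1 h⟩
  · rintro (⟨⟨z, b⟩, hz, h⟩ | ⟨c, hc, h⟩)
    · left
      refine ⟨z, hz, ?_⟩
      cases b <;> simp [h]
    · exact Or.inr ⟨c, List.mem_dedup.2 hc, mem_cverts.2 h⟩

theorem nodup_verts (φ : CNF3) : (verts φ).Nodup := by
  unfold verts
  rw [List.nodup_append]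
  refine ⟨?_, ?_, ?_⟩
  · rw [List.nodup_flatMap]
    refine ⟨fun z _ => by simp, ?_⟩
    have h : (vars φ).Nodup := List.nodup_dedup _
    refine h.imp fun {a b} hab => ?_
    simp [Function.onFun, Ne.symm hab]
  · rw [List.nodup_flatMap]
    refine ⟨fun c _ => nodup_cverts c, ?_⟩
    have h : φ.dedup.Nodup := List.nodup_dedup _
    refine h.imp fun {a b} hab => ?_
    simp only [Function.onFun]
    intro x hx hx'
    rw [mem_cverts] at hx hx'
    rw [hx] at hx'
    exact hab (Option.some.inj hx')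
  · intro x hx y hy hxy
    subst hxy
    rw [List.mem_flatMap] at hx hy
    obtain ⟨z, -, hx⟩ := hx
    obtain ⟨c, -, hy⟩ := hy
    rw [mem_cverts] at hy
    simp only [List.mem_cons, List.not_mem_nil, or_false] at hx
    rcases hx with rfl | rfl <;> simp [Nm.cl] at hy

theorem X_mem {φ : CNF3} {l : Lit} : Nm.X l ∈ verts φ ↔ l.1 ∈ vars φ := by
  rw [mem_verts]
  constructor
  · rintro (⟨l', h1, h2⟩ | ⟨c, hc, h⟩)
    · injection h2 with h2
      rw [h2]
      exact h1
    · simp [Nm.cl] at h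
  · exact fun h => Or.inl ⟨l, h, rfl⟩

theorem mem_of_cl {φ : CNF3} {c : Cl} {x : Nm} (hx : x.cl = some c) : x ∈ verts φ ↔ c ∈ φ := by
  rw [mem_verts]
  constructor
  · rintro (⟨l', h1, h2⟩ | ⟨c', hc, h⟩)
    · rw [h2] at hx
      simp [Nm.cl] at hx
    · rw [hx] at h
      rw [Option.some.inj h]
      exact hc
  · exact fun h => Or.inr ⟨c, h, hx⟩

/-- neighbours of `x` before `x` -/
def pre (φ : CNF3) (ρ : Nm → ℕ) (x : Nm) : Set Nm := {y | y ∈ verts φ ∧ NG.Adj x y ∧ ρ y < ρ x}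

theorem pre_finite (φ : CNF3) (ρ : Nm → ℕ) (x : Nm) : (pre φ ρ x).Finite :=
  (List.finite_toSet (verts φ)).subset fun _ hy => hy.1

theorem ncard_get (φ : CNF3) (ρ : Nm → ℕ) (v : Fin (verts φ).length) :
    {u : Fin (verts φ).length | NG.Adj ((verts φ).get v) ((verts φ).get u) ∧
      ρ ((verts φ).get u) < ρ ((verts φ).get v)}.ncard = (pre φ ρ ((verts φ).get v)).ncard := by
  have hinj : Function.Injective (verts φ).get := List.nodup_iff_injective_get.1 (nodup_verts φ)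
  rw [← Set.ncard_image_of_injective _ hinj]
  congr 1
  ext y
  simp only [Set.mem_image, Set.mem_ofPred_eq, pre]
  constructor
  · rintro ⟨u, ⟨h1, h2⟩, rfl⟩
    exact ⟨List.get_mem _ _, h1, h2⟩
  · rintro ⟨h1, h2, h3⟩
    obtain ⟨u, rfl⟩ := List.get_of_mem h1
    exact ⟨u, ⟨h2, h3⟩, rfl⟩

/-- Type-A order of the graph of `φ` from a rank function on names -/
theorem typeA_gr {φ : CNF3} (ρ : Nm → ℕ)
    (h : ∀ x ∈ verts φ, ∀ y ∈ verts φ, NG.Adj x y → ρ x ≠ ρ y)
    (h2 : ∀ x ∈ verts φ, Odd (pre φ ρ x).ncard ∨ (pre φ ρ x).ncard = 0) :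
    ∃ σ, IsTypeA (gr φ).2 σ := by
  refine typeA_of_rank (gr φ).2 (fun u => ρ ((verts φ).get u)) ?_ ?_
  · intro u v huv
    exact h _ (List.get_mem _ _) _ (List.get_mem _ _) huv
  · intro v
    have := h2 _ (List.get_mem (verts φ) v)
    rw [← ncard_get φ ρ v] at this
    exact this

/-- a rank function on names from a Type-B order of the graph of `φ` -/
theorem gr_typeB {φ : CNF3} {σ : Equiv.Perm (Fin (gr φ).1)} (h : IsTypeB (gr φ).2 σ) :
    ∃ ρ : Nm → ℕ, (∀ x ∈ verts φ, ∀ y ∈ verts φ, NG.Adj x y → ρ x ≠ ρ y) ∧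
      ∀ x ∈ verts φ, (Odd (pre φ ρ x).ncard ∨ (pre φ ρ x).ncard = 0) ∨
        ∀ y ∈ verts φ, NG.Adj x y → ρ y < ρ x := by
  classical
  have hinj : Function.Injective (verts φ).get := List.nodup_iff_injective_get.1 (nodup_verts φ)
  obtain ⟨h1, h2⟩ := typeB_rank h
  have hex : ∀ x : Nm, ∃ r : ℕ, ∀ u : Fin (verts φ).length, (verts φ).get u = x → r = (σ u : ℕ) := by
    intro x
    by_cases hx : ∃ u : Fin (verts φ).length, (verts φ).get u = x
    · obtain ⟨u, hu⟩ := hx
      refine ⟨(σ u : ℕ), fun v hv => ?_⟩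
      have : u = v := hinj (hu.trans hv.symm)
      rw [this]
    · exact ⟨0, fun u hu => absurd ⟨u, hu⟩ hx⟩
  choose ρ hρ using hex
  have hρ' : ∀ u, ρ ((verts φ).get u) = (σ u : ℕ) := fun u => hρ _ u rfl
  refine ⟨ρ, ?_, ?_⟩
  · intro x hx y hy hxy
    obtain ⟨u, rfl⟩ := List.get_of_mem hx
    obtain ⟨v, rfl⟩ := List.get_of_mem hy
    rw [hρ', hρ']
    exact h1 u v hxy
  · intro x hx
    obtain ⟨v, rfl⟩ := List.get_of_mem hx
    rcases h2 v with h3 | h3
    · left
      rw [← ncard_get φ ρ v]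
      simp only [hρ']
      exact h3
    · right
      intro y hy hxy
      obtain ⟨u, rfl⟩ := List.get_of_mem hy
      rw [hρ', hρ']
      exact h3 u hxy

end Pool.Agent.ABO
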