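import Pool.Agent.TM2Lib.NPGlue
import Pool.Agent.TM2Lib.PolyNat
import Pool.Agent.ABO.Rank

/-!
# Recognition of graphs with Type-A (Type-B) orders is in NP
-/

namespace Pool.Agent.TM2Lib.ABO

open Pool.Agent.ABO D
open Pool.Agent.H17T3S (Lit Cl CNF3 Holds Satisfiable SAT3 Graph adjLists vars)

/-- `u` has a smaller rank than `v`; `c` is the list of ranks -/
def lt (c : List ℕ) (u v : ℕ) : Bool :=
  c.zipIdx.any fun p => decide (p.2 = u) &&
    c.zipIdx.any fun q => decide (q.2 = v) && decide (p.1 < q.1)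

/-- parity of the number of elements of `l` of rank smaller than `v` -/
def par (c : List ℕ) (v : ℕ) (l : List ℕ) : Bool :=
  l.foldr (fun u b => xor (lt c u v) b) false

/-- check a list of ranks; `B` tells the type -/
def chk (B : Bool) (A : List (List ℕ)) (c : List ℕ) : Bool :=
  A.zipIdx.all fun q => (q.1.all fun u => lt c u q.2 || lt c q.2 u) &&
    ((par c q.2 q.1 || !(q.1.any fun u => lt c u q.2)) || (B && q.1.all fun u => lt c u q.2))

section
variable {α : Type} [Enc α]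

theorem pc {β γ : Type} [Enc β] [Enc γ] {f : α → γ} (hf : Poly f) :
    Poly (fun p : α × β => f p.1) := hf.comp Poly.fst

theorem poly_lt {c : α → List ℕ} {u v : α → ℕ} (hc : Poly c) (hu : Poly u) (hv : Poly v) :
    Poly (fun a => lt (c a) (u a) (v a)) := by
  refine Poly.any (h := fun p : α × (ℕ × ℕ) => decide (p.2.2 = u p.1) &&
    (c p.1).zipIdx.any fun q => decide (q.2 = v p.1) && decide (p.2.1 < q.1))
    (Poly.NPC.zipIdx hc) ?_
  refine (Poly.NPC.nat_eq Poly.id.snd'.snd' (pc hu)).and ?_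
  exact Poly.any (h := fun q : (α × (ℕ × ℕ)) × (ℕ × ℕ) => decide (q.2.2 = v q.1.1) &&
    decide (q.1.2.1 < q.2.1)) (Poly.NPC.zipIdx (pc hc))
    ((Poly.NPC.nat_eq Poly.id.snd'.snd' (pc (pc hv))).and
      (Poly.NPC.nat_lt Poly.id.fst'.snd'.fst' Poly.id.snd'.fst'))

theorem poly_par {c : α → List ℕ} {v : α → ℕ} {l : α → List ℕ} (hc : Poly c) (hv : Poly v)
    (hl : Poly l) : Poly (fun a => par (c a) (v a) (l a)) := by
  refine Poly.foldr_add (f := l) (g := fun _ => false)
    (h := fun p : α × (Bool × ℕ) => xor (lt (c p.1) p.2.2 (v p.1)) p.2.1) hl (Poly.const _)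
    (Poly.bne (poly_lt (pc hc) Poly.id.snd'.snd' (pc hv)) Poly.id.snd'.fst') 3 ?_
  intro a s b _
  have h : ∀ x : Bool, sz x ≤ 3 ∧ 0 < sz x := by
    intro x
    exact ⟨by cases x <;> decide, sz_pos x⟩
  have h1 := (h (xor (lt (c a) b (v a)) s)).1
  have h2 : (Polynomial.eval (sz a) (3 : Polynomial ℕ)) = 3 := by simp
  simp only [h2]
  omega

theorem poly_chk (B : Bool) {A : α → List (List ℕ)} {c : α → List ℕ} (hA : Poly A)
    (hc : Poly c) : Poly (fun a => chk B (A a) (c a)) := by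
  refine Poly.all (h := fun p : α × (List ℕ × ℕ) =>
    (p.2.1.all fun u => lt (c p.1) u p.2.2 || lt (c p.1) p.2.2 u) &&
    ((par (c p.1) p.2.2 p.2.1 || !(p.2.1.any fun u => lt (c p.1) u p.2.2)) ||
      (B && p.2.1.all fun u => lt (c p.1) u p.2.2))) (Poly.NPC.zipIdx hA) ?_
  have hl : Poly (fun p : α × (List ℕ × ℕ) => p.2.1) := Poly.id.snd'.fst'
  have hv : Poly (fun p : α × (List ℕ × ℕ) => p.2.2) := Poly.id.snd'.snd'
  refine Poly.and ?_ (Poly.or (Poly.or ?_ (Poly.not ?_)) (Poly.and (Poly.const B) ?_))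
  · exact Poly.all (h := fun q : (α × (List ℕ × ℕ)) × ℕ =>
      lt (c q.1.1) q.2 q.1.2.2 || lt (c q.1.1) q.1.2.2 q.2) hl
      ((poly_lt (pc (pc hc)) Poly.id.snd' (pc hv)).or (poly_lt (pc (pc hc)) (pc hv) Poly.id.snd'))
  · exact poly_par (pc hc) hv hl
  · exact Poly.any (h := fun q : (α × (List ℕ × ℕ)) × ℕ => lt (c q.1.1) q.2 q.1.2.2) hl
      (poly_lt (pc (pc hc)) Poly.id.snd' (pc hv))
  · exact Poly.all (h := fun q : (α × (List ℕ × ℕ)) × ℕ => lt (c q.1.1) q.2 q.1.2.2) hl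
      (poly_lt (pc (pc hc)) Poly.id.snd' (pc hv))

end

/-! ### correctness of the check -/

theorem lt_iff {c : List ℕ} {u v : ℕ} :
    lt c u v = true ↔ ∃ a b, (c)[u]? = some a ∧ (c)[v]? = some b ∧ a < b := by
  unfold lt
  simp only [List.any_eq_true, Bool.and_eq_true, decide_eq_true_eq]
  constructor
  · rintro ⟨⟨a, i⟩, h1, h2, ⟨b, j⟩, h3, h4, h5⟩
    simp only at h2 h4 h5
    subst h2 h4
    rw [List.mem_zipIdx_iff_getElem?] at h1 h3
    exact ⟨a, b, h1, h3, h5⟩
  · rintro ⟨a, b, h1, h2, h3⟩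
    refine ⟨(a, u), ?_, rfl, (b, v), ?_, rfl, h3⟩
    · rw [List.mem_zipIdx_iff_getElem?]; exact h1
    · rw [List.mem_zipIdx_iff_getElem?]; exact h2

theorem par_eq (c : List ℕ) (v : ℕ) (l : List ℕ) :
    par c v l = true ↔ Odd (l.countP fun u => lt c u v) := by
  unfold par
  induction l with
  | nil => simp
  | cons u l ih =>
    rw [List.foldr_cons, List.countP_cons]
    cases h : lt c u v
    · rw [Bool.false_xor, if_neg (by simp), add_zero]
      exact ih
    · rw [Bool.true_xor, if_pos rfl, Nat.odd_add_one, ← ih]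
      simp

/-- the list of neighbours of `v` -/
noncomputable def nbl {n : ℕ} (G : SimpleGraph (Fin n)) (v : Fin n) : List ℕ := by
  classical
  exact ((List.finRange n).filter fun u => decide (G.Adj v u)).map Fin.val

theorem mem_nbl {n : ℕ} {G : SimpleGraph (Fin n)} {v : Fin n} {u : ℕ} :
    u ∈ nbl G v ↔ ∃ w : Fin n, G.Adj v w ∧ (w : ℕ) = u := by
  classical
  unfold nbl
  simp

theorem countP_nbl {n : ℕ} (G : SimpleGraph (Fin n)) (v : Fin n) (p : ℕ → Bool) :
    (nbl G v).countP p = {u : Fin n | G.Adj v u ∧ p u = true}.ncard := by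
  classical
  unfold nbl
  rw [List.countP_map, List.countP_filter, List.countP_eq_length_filter]
  have h : {u : Fin n | G.Adj v u ∧ p u = true} = (((List.finRange n).filter
      fun u => (p ∘ Fin.val) u && decide (G.Adj v u)).toFinset : Set (Fin n)) := by
    ext u
    simp [and_comm]
  rw [h, Set.ncard_coe_finset, List.toFinset_card_of_nodup ((List.nodup_finRange n).filter _)]

theorem mem_adjLists {G : Graph} {l : List ℕ} {i : ℕ} :
    (l, i) ∈ (adjLists G).zipIdx ↔ ∃ v : Fin G.1, (v : ℕ) = i ∧ l = nbl G.2 v := by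
  classical
  rw [List.mem_zipIdx_iff_getElem?]
  unfold adjLists
  simp only [List.getElem?_map]
  rw [Option.map_eq_some_iff]
  constructor
  · rintro ⟨v, hv, hl⟩
    have hi : (v : ℕ) = i := by
      rw [List.getElem?_eq_some_iff] at hv
      obtain ⟨hlt, he⟩ := hv
      rw [← he]
      simp
    exact ⟨v, hi, hl.symm⟩
  · rintro ⟨v, rfl, rfl⟩
    refine ⟨v, ?_, rfl⟩
    rw [List.getElem?_eq_some_iff]
    exact ⟨by simp, by simp⟩

theorem chk_iff {B : Bool} {G : Graph} {c : List ℕ} : chk B (adjLists G) c = true ↔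
    ∀ v : Fin G.1, (∀ u : Fin G.1, G.2.Adj v u → lt c u v = true ∨ lt c v u = true) ∧
      ((Odd {u : Fin G.1 | G.2.Adj v u ∧ lt c u v = true}.ncard ∨
        {u : Fin G.1 | G.2.Adj v u ∧ lt c u v = true}.ncard = 0) ∨
        (B = true ∧ ∀ u : Fin G.1, G.2.Adj v u → lt c u v = true)) := by
  have key : ∀ v : Fin G.1, (((nbl G.2 v).all fun u => lt c u v || lt c v u) &&
      ((par c v (nbl G.2 v) || !((nbl G.2 v).any fun u => lt c u v)) ||
        (B && (nbl G.2 v).all fun u => lt c u v))) = true ↔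
      ((∀ u : Fin G.1, G.2.Adj v u → lt c u v = true ∨ lt c v u = true) ∧
      ((Odd {u : Fin G.1 | G.2.Adj v u ∧ lt c u v = true}.ncard ∨
        {u : Fin G.1 | G.2.Adj v u ∧ lt c u v = true}.ncard = 0) ∨
        (B = true ∧ ∀ u : Fin G.1, G.2.Adj v u → lt c u v = true))) := by
    intro v
    have h1 : ((nbl G.2 v).all fun u => lt c u v || lt c v u) = true ↔
        ∀ u : Fin G.1, G.2.Adj v u → lt c u v = true ∨ lt c v u = true := by
      simp only [List.all_eq_true, mem_nbl, Bool.or_eq_true]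
      constructor
      · exact fun h u hu => h u ⟨u, hu, rfl⟩
      · rintro h _ ⟨u, hu, rfl⟩
        exact h u hu
    have h2 : ((nbl G.2 v).all fun u => lt c u v) = true ↔
        ∀ u : Fin G.1, G.2.Adj v u → lt c u v = true := by
      simp only [List.all_eq_true, mem_nbl]
      constructor
      · exact fun h u hu => h u ⟨u, hu, rfl⟩
      · rintro h _ ⟨u, hu, rfl⟩
        exact h u hu
    have h3 : ((nbl G.2 v).any fun u => lt c u v) = false ↔
        {u : Fin G.1 | G.2.Adj v u ∧ lt c u v = true}.ncard = 0 := by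
      rw [Set.ncard_eq_zero (Set.toFinite _), Set.eq_empty_iff_forall_notMem]
      simp only [List.any_eq_false, mem_nbl, Set.mem_ofPred_eq, not_and, Bool.not_eq_true]
      constructor
      · exact fun h u hu => h u ⟨u, hu, rfl⟩
      · rintro h _ ⟨u, hu, rfl⟩
        exact h u hu
    rw [Bool.and_eq_true, h1, Bool.or_eq_true, Bool.or_eq_true, Bool.and_eq_true, h2,
      Bool.not_eq_true', h3, par_eq, countP_nbl]
  unfold chk
  rw [List.all_eq_true]
  constructor
  · intro h v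
    exact (key v).1 (h (nbl G.2 v, (v : ℕ)) (mem_adjLists.2 ⟨v, rfl, rfl⟩))
  · rintro h ⟨l, i⟩ hq
    obtain ⟨v, rfl, rfl⟩ := mem_adjLists.1 hq
    exact (key v).2 (h v)

theorem chk_sound {B : Bool} {G : Graph} {c : List ℕ} (h : chk B (adjLists G) c = true) :
    ∃ ρ : Fin G.1 → ℕ, (∀ u v, G.2.Adj u v → ρ u ≠ ρ v) ∧
      ∀ v, (Odd {u | G.2.Adj v u ∧ ρ u < ρ v}.ncard ∨
        {u | G.2.Adj v u ∧ ρ u < ρ v}.ncard = 0) ∨
        (B = true ∧ ∀ u, G.2.Adj v u → ρ u < ρ v) := by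
  rw [chk_iff] at h
  set ρ : Fin G.1 → ℕ := fun v => ((c)[(v : ℕ)]?).getD 0 with hρ
  have hlt : ∀ u v : Fin G.1, lt c u v = true → ρ u < ρ v := by
    intro u v huv
    obtain ⟨a, b, h1, h2, h3⟩ := lt_iff.1 huv
    simp only [hρ, h1, h2, Option.getD_some]
    exact h3
  have hiff : ∀ u v : Fin G.1, G.2.Adj v u → (lt c u v = true ↔ ρ u < ρ v) := by
    intro u v huv
    refine ⟨hlt u v, fun h4 => ?_⟩
    rcases (h v).1 u huv with h5 | h5
    · exact h5
    · exact absurd (hlt v u h5) (by omega)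
  refine ⟨ρ, ?_, fun v => ?_⟩
  · intro u v huv
    rcases (h u).1 v huv with h5 | h5
    · exact (hlt v u h5).ne'
    · exact (hlt u v h5).ne
  · have hset : {u | G.2.Adj v u ∧ ρ u < ρ v} = {u : Fin G.1 | G.2.Adj v u ∧ lt c u v = true} := by
      ext u
      simp only [Set.mem_ofPred_eq]
      constructor
      · rintro ⟨h1, h2⟩; exact ⟨h1, (hiff u v h1).2 h2⟩
      · rintro ⟨h1, h2⟩; exact ⟨h1, (hiff u v h1).1 h2⟩
    rw [hset]
    rcases (h v).2 with h5 | ⟨h5, h6⟩
    · exact Or.inl h5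
    · exact Or.inr ⟨h5, fun u hu => (hiff u v hu).1 (h6 u hu)⟩

/-- the certificate of an order -/
def cert {n : ℕ} (σ : Equiv.Perm (Fin n)) : List ℕ := (List.finRange n).map fun v => (σ v : ℕ)

theorem lt_cert {n : ℕ} (σ : Equiv.Perm (Fin n)) (u v : Fin n) :
    lt (cert σ) u v = true ↔ (σ u : ℕ) < (σ v : ℕ) := by
  have h : ∀ w : Fin n, (cert σ)[(w : ℕ)]? = some (σ w : ℕ) := by
    intro w
    unfold cert
    simp
  rw [lt_iff, h, h]
  simp

theorem chk_complete {B : Bool} {G : Graph} {σ : Equiv.Perm (Fin G.1)}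
    (h1 : ∀ u v, G.2.Adj u v → (σ u : ℕ) ≠ (σ v : ℕ))
    (h2 : ∀ v, (Odd {u | G.2.Adj v u ∧ (σ u : ℕ) < (σ v : ℕ)}.ncard ∨
      {u | G.2.Adj v u ∧ (σ u : ℕ) < (σ v : ℕ)}.ncard = 0) ∨
      (B = true ∧ ∀ u, G.2.Adj v u → (σ u : ℕ) < (σ v : ℕ))) :
    chk B (adjLists G) (cert σ) = true := by
  rw [chk_iff]
  intro v
  simp only [lt_cert]
  refine ⟨fun u hu => ?_, h2 v⟩
  have := h1 v u hu
  omega

theorem sz_map_le {n K : ℕ} (g : Fin n → ℕ) (hg : ∀ v, sz (g v) ≤ K) (l : List (Fin n)) :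
    sz (l.map g) ≤ l.length * (K + 1) + 1 := by
  induction l with
  | nil => simp
  | cons v l ih =>
    have h1 := hg v
    rw [List.map_cons, sz_cons, List.length_cons, Nat.succ_mul]
    omega

theorem sz_cert_le {n : ℕ} (σ : Equiv.Perm (Fin n)) : sz (cert σ) ≤ n * (4 * n + 2) + 1 := by
  have h1 := sz_map_le (K := 4 * n + 1) (fun v : Fin n => (σ v : ℕ))
    (fun v => by
      have e1 := Poly.NPC.sz_nat_le (σ v : ℕ)
      have e2 := (σ v).2
      omega) (List.finRange n)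
  rw [List.length_finRange] at h1
  exact h1

theorem le_sz (G : Graph) : G.1 ≤ sz G := by
  have h2 : (adjLists G).length < sz (adjLists G) := length_lt_sz (adjLists G)
  have h3 : (adjLists G).length = G.1 := by simp [adjLists]
  have h4 : sz G = sz (adjLists G) := rfl
  omega

theorem poly_adjLists : Poly adjLists := Poly.of_enc fun _ => rfl

/-- the certificate polynomial -/
noncomputable def cp : Polynomial ℕ := Polynomial.X * (4 * Polynomial.X + 2) + 1

theorem sz_cert (G : Graph) (σ : Equiv.Perm (Fin G.1)) : sz (cert σ) ≤ cp.eval (sz G) := by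
  have h1 := sz_cert_le σ
  have h2 := le_sz G
  have h3 : G.1 * (4 * G.1 + 2) ≤ sz G * (4 * sz G + 2) := Nat.mul_le_mul h2 (by omega)
  unfold cp
  simp only [Polynomial.eval_add, Polynomial.eval_mul, Polynomial.eval_X,
    Polynomial.eval_ofNat, Polynomial.eval_one]
  omega

/-- **Type-A recognition is in NP.** -/
theorem inNP_A : NPC.InNP ⟨Graph, NPC.code, fun G => ∃ σ, IsTypeA G.2 σ⟩ := by
  refine NPC.inNP_of_poly (fun p : Graph × List ℕ => chk false (adjLists p.1) p.2)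
    (poly_chk false (poly_adjLists.comp Poly.fst) Poly.snd) cp ?_ ?_
  · intro G c h
    obtain ⟨ρ, h1, h2⟩ := chk_sound h
    refine typeA_of_rank G.2 ρ h1 fun v => ?_
    rcases h2 v with h3 | ⟨h3, -⟩
    · exact h3
    · cases h3
  · rintro G ⟨σ, hσ⟩
    obtain ⟨h1, h2⟩ := typeA_rank hσ
    exact ⟨cert σ, sz_cert G σ, chk_complete h1 fun v => Or.inl (h2 v)⟩

/-- **Type-B recognition is in NP.** -/
theorem inNP_B : NPC.InNP ⟨Graph, NPC.code, fun G => ∃ σ, IsTypeB G.2 σ⟩ := by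
  refine NPC.inNP_of_poly (fun p : Graph × List ℕ => chk true (adjLists p.1) p.2)
    (poly_chk true (poly_adjLists.comp Poly.fst) Poly.snd) cp ?_ ?_
  · intro G c h
    obtain ⟨ρ, h1, h2⟩ := chk_sound h
    refine typeB_of_rank G.2 ρ h1 fun v => ?_
    rcases h2 v with h3 | ⟨-, h3⟩
    · exact Or.inl h3
    · exact Or.inr h3
  · rintro G ⟨σ, hσ⟩
    obtain ⟨h1, h2⟩ := typeB_rank hσ
    refine ⟨cert σ, sz_cert G σ, chk_complete h1 fun v => ?_⟩
    rcases h2 v with h3 | h3
    · exact Or.inl h3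
    · exact Or.inr ⟨rfl, h3⟩

end Pool.Agent.TM2Lib.ABO
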