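import Pool.Agent.H64T3S.PolyGr
import Pool.Agent.ABO.Complete

/-!
# The reduction is computable in polynomial time
-/

namespace Pool.Agent.TM2Lib.ABO

open Pool.Agent.ABO D
open Pool.Agent.H17T3S (Lit Cl CNF3 Holds Satisfiable SAT3 Graph adjLists vars)
open Pool.Agent.TM2Lib.T3S (PEq pEq_nat pEq_bool pEq_prod pEq_lit pEq_cl poly_dedup ri mi mi_ri
  poly_lit poly_opp poly_cl_and poly_vars zipIdx_eq map_finRange_get)

/-! ### codes of names -/

/-- the tag of a name, with indices -/
abbrev Tag : Type := (Bool × Bool × Bool) × ((Bool × Bool) × (Bool × Bool))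

/-- the zero clause -/
def c0 : Cl := ((0, false), (0, false), (0, false))

/-- a name as a tuple -/
def rep : Nm → Tag × Cl
  | .X l => (((false, false, false), (ri 0, ri 0)), (l, (0, false), (0, false)))
  | .H c i => (((false, false, true), (ri i, ri 0)), c)
  | .K c i r => (((false, true, false), (ri i, ri r)), c)
  | .W c i => (((false, true, true), (ri i, ri 0)), c)
  | .C c i => (((true, false, false), (ri i, ri 0)), c)
  | .Q c => (((true, false, true), (ri 0, ri 0)), c)
  | .U c => (((true, true, false), (ri 0, ri 0)), c)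
  | .V c r => (((true, true, true), (ri 0, ri r)), c)

/-- the name with a given tag and clause -/
def mk : Tag → Cl → Nm
  | ((false, false, false), _), c => .X c.1
  | ((false, false, true), x), c => .H c (mi x.1)
  | ((false, true, false), x), c => .K c (mi x.1) (mi x.2)
  | ((false, true, true), x), c => .W c (mi x.1)
  | ((true, false, false), x), c => .C c (mi x.1)
  | ((true, false, true), _), c => .Q c
  | ((true, true, false), _), c => .U c
  | ((true, true, true), x), c => .V c (mi x.2)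

theorem mk_rep (u : Nm) : mk (rep u).1 (rep u).2 = u := by
  cases u <;> simp [rep, mk, mi_ri]

instance : Enc Nm := ⟨fun u => enc (rep u)⟩

/-- the eight kinds of names -/
def Simple (u : Cl → Nm) : Prop :=
  u = (fun c => .X c.1) ∨ (∃ i, u = fun c => .H c i) ∨ (∃ i r, u = fun c => .K c i r) ∨
    (∃ i, u = fun c => .W c i) ∨ (∃ i, u = fun c => .C c i) ∨ (u = fun c => .Q c) ∨
    (u = fun c => .U c) ∨ (∃ r, u = fun c => .V c r)

theorem simple_mk (x : Tag) : Simple (mk x) := by
  obtain ⟨⟨t1, t2, t3⟩, i⟩ := x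
  cases t1 <;> cases t2 <;> cases t3
  · exact Or.inl rfl
  · exact Or.inr (Or.inl ⟨mi i.1, rfl⟩)
  · exact Or.inr (Or.inr (Or.inl ⟨mi i.1, mi i.2, rfl⟩))
  · exact Or.inr (Or.inr (Or.inr (Or.inl ⟨mi i.1, rfl⟩)))
  · exact Or.inr (Or.inr (Or.inr (Or.inr (Or.inl ⟨mi i.1, rfl⟩))))
  · exact Or.inr (Or.inr (Or.inr (Or.inr (Or.inr (Or.inl rfl)))))
  · exact Or.inr (Or.inr (Or.inr (Or.inr (Or.inr (Or.inr (Or.inl rfl))))))
  · exact Or.inr (Or.inr (Or.inr (Or.inr (Or.inr (Or.inr (Or.inr ⟨mi i.2, rfl⟩))))))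

theorem poly_arc {u v : Cl → Nm} (hu : Simple u) (hv : Simple v) :
    Poly (fun p : Cl × Cl => (u p.1).arc (v p.2)) := by
  have F : Poly (fun p : Cl × Cl => p.1) := Poly.fst
  have S : Poly (fun p : Cl × Cl => p.2) := Poly.snd
  have cF : Poly (fun _ : Cl × Cl => false) := Poly.const false
  have cT : Poly (fun _ : Cl × Cl => true) := Poly.const true
  rcases hu with rfl | ⟨i, rfl⟩ | ⟨i, r, rfl⟩ | ⟨i, rfl⟩ | ⟨i, rfl⟩ | rfl | rfl | ⟨r, rfl⟩ <;>
    rcases hv with rfl | ⟨j, rfl⟩ | ⟨j, s, rfl⟩ | ⟨j, rfl⟩ | ⟨j, rfl⟩ | rfl | rfl | ⟨s, rfl⟩ <;>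
    first
    | exact cF
    | exact cT
    | exact poly_opp F.fst' S.fst'
    | exact pEq_lit _ _ _ (poly_lit F i) S.fst'
    | exact poly_cl_and F S (i = j)
    | exact poly_cl_and F S (i = j ∧ r ≠ s)
    | exact poly_cl_and F S (i = 0 ∧ j ≠ 0)
    | exact poly_cl_and F S (j ≠ 0)
    | exact pEq_cl _ _ _ F S
    | exact poly_cl_and F S (r ≠ s)

theorem poly_adj0 {u v : Cl → Nm} (hu : Simple u) (hv : Simple v) :
    Poly (fun p : Cl × Cl => (u p.1).adj (v p.2)) :=
  Poly.or (poly_arc hu hv) ((poly_arc hv hu).comp (Poly.snd.pair Poly.fst))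

theorem casesPoly_tag : NPC.CasesPoly Tag :=
  NPC.casesPoly_prod (NPC.casesPoly_prod NPC.casesPoly_bool (NPC.casesPoly_prod
    NPC.casesPoly_bool NPC.casesPoly_bool)) (NPC.casesPoly_prod (NPC.casesPoly_prod
      NPC.casesPoly_bool NPC.casesPoly_bool) (NPC.casesPoly_prod
      NPC.casesPoly_bool NPC.casesPoly_bool))

theorem poly_adj {α : Type} [Enc α] {f g : α → Nm} (hf : Poly f) (hg : Poly g) :
    Poly (fun a => (f a).adj (g a)) := by
  have hf' : Poly (fun a => rep (f a)) := hf
  have hg' : Poly (fun a => rep (g a)) := hg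
  have h1 : Poly (fun a => (mk (rep (f a)).1 (rep (f a)).2).adj (mk (rep (g a)).1 (rep (g a)).2)) :=
    casesPoly_tag α Bool (fun x a => (mk x (rep (f a)).2).adj (mk (rep (g a)).1 (rep (g a)).2))
      (fun a => (rep (f a)).1) (fun x => casesPoly_tag α Bool
        (fun y a => (mk x (rep (f a)).2).adj (mk y (rep (g a)).2)) (fun a => (rep (g a)).1)
          (fun y => (poly_adj0 (simple_mk x) (simple_mk y)).comp (hf'.snd'.pair hg'.snd'))
            hg'.fst') hf'.fst'
  exact h1.of_eq fun a => by rw [mk_rep, mk_rep]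

/-! ### the list of vertices -/

section
variable {α : Type} [Enc α]

theorem poly_X {f : α → Lit} (hf : Poly f) : Poly (fun a => Nm.X (f a)) := by
  have h : Poly (fun a => rep (Nm.X (f a))) :=
    (Poly.const (((false, false, false), (ri 0, ri 0)) : Tag)).pair (hf.pair (Poly.const _))
  exact h

theorem poly_H {f : α → Cl} (hf : Poly f) (i : Fin 3) : Poly (fun a => Nm.H (f a) i) := by
  have h : Poly (fun a => rep (Nm.H (f a) i)) :=
    (Poly.const (((false, false, true), (ri i, ri 0)) : Tag)).pair hf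
  exact h

theorem poly_K {f : α → Cl} (hf : Poly f) (i r : Fin 3) : Poly (fun a => Nm.K (f a) i r) := by
  have h : Poly (fun a => rep (Nm.K (f a) i r)) :=
    (Poly.const (((false, true, false), (ri i, ri r)) : Tag)).pair hf
  exact h

theorem poly_W {f : α → Cl} (hf : Poly f) (i : Fin 3) : Poly (fun a => Nm.W (f a) i) := by
  have h : Poly (fun a => rep (Nm.W (f a) i)) :=
    (Poly.const (((false, true, true), (ri i, ri 0)) : Tag)).pair hf
  exact h

theorem poly_C {f : α → Cl} (hf : Poly f) (i : Fin 3) : Poly (fun a => Nm.C (f a) i) := by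
  have h : Poly (fun a => rep (Nm.C (f a) i)) :=
    (Poly.const (((true, false, false), (ri i, ri 0)) : Tag)).pair hf
  exact h

theorem poly_Q {f : α → Cl} (hf : Poly f) : Poly (fun a => Nm.Q (f a)) := by
  have h : Poly (fun a => rep (Nm.Q (f a))) :=
    (Poly.const (((true, false, true), (ri 0, ri 0)) : Tag)).pair hf
  exact h

theorem poly_U {f : α → Cl} (hf : Poly f) : Poly (fun a => Nm.U (f a)) := by
  have h : Poly (fun a => rep (Nm.U (f a))) :=
    (Poly.const (((true, true, false), (ri 0, ri 0)) : Tag)).pair hf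
  exact h

theorem poly_V {f : α → Cl} (hf : Poly f) (r : Fin 3) : Poly (fun a => Nm.V (f a) r) := by
  have h : Poly (fun a => rep (Nm.V (f a) r)) :=
    (Poly.const (((true, true, true), (ri 0, ri r)) : Tag)).pair hf
  exact h

theorem poly_cverts {f : α → Cl} (hf : Poly f) : Poly (fun a => cverts (f a)) := by
  unfold cverts
  exact (poly_H hf 0).cons ((poly_H hf 1).cons ((poly_H hf 2).cons
    ((poly_K hf 0 0).cons ((poly_K hf 0 1).cons ((poly_K hf 0 2).cons
    ((poly_K hf 1 0).cons ((poly_K hf 1 1).cons ((poly_K hf 1 2).cons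
    ((poly_K hf 2 0).cons ((poly_K hf 2 1).cons ((poly_K hf 2 2).cons
    ((poly_W hf 0).cons ((poly_W hf 1).cons ((poly_W hf 2).cons
    ((poly_C hf 0).cons ((poly_C hf 1).cons ((poly_C hf 2).cons
    ((poly_Q hf).cons ((poly_U hf).cons
    ((poly_V hf 0).cons ((poly_V hf 1).cons ((poly_V hf 2).cons
    (Poly.const [])))))))))))))))))))))))

end

theorem poly_verts : Poly verts := by
  unfold verts
  refine Poly.append ?_ ?_
  · refine Poly.flatMap (h := fun p : CNF3 × ℕ => [Nm.X (p.2, true), Nm.X (p.2, false)])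
      poly_vars ?_
    have h1 : Poly (fun p : CNF3 × ℕ => ((p.2, true) : Lit)) := Poly.id.snd'.pair (Poly.const _)
    have h2 : Poly (fun p : CNF3 × ℕ => ((p.2, false) : Lit)) := Poly.id.snd'.pair (Poly.const _)
    exact (poly_X h1).cons ((poly_X h2).cons (Poly.const []))
  · exact Poly.flatMap (h := fun p : CNF3 × Cl => cverts p.2) (poly_dedup pEq_cl Poly.id)
      (poly_cverts Poly.snd)

/-! ### adjacency lists -/

/-- adjacency lists from the list of names -/
def adjL (vs : List Nm) : List (List ℕ) :=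
  vs.map fun u => (vs.zipIdx.filter fun p => u.adj p.1).map fun p => p.2

open Classical in
theorem adjLists_gr (φ : CNF3) : adjLists (gr φ) = adjL (verts φ) := by
  unfold adjLists adjL
  rw [← map_finRange_get (verts φ)]
  change (List.finRange (verts φ).length).map _ = _
  apply List.map_congr_left
  intro v _
  rw [zipIdx_eq, List.filter_map, List.map_map]
  have h1 : (List.finRange (verts φ).length).filter (fun u => decide ((gr φ).2.Adj v u)) =
      (List.finRange (verts φ).length).filter ((fun p : Nm × ℕ => ((verts φ).get v).adj p.1) ∘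
        fun u => ((verts φ).get u, (u : ℕ))) := by
    apply List.filter_congr
    intro u _
    rw [Bool.eq_iff_iff, decide_eq_true_eq]
    rfl
  rw [← h1]
  rfl

theorem poly_adjL {α : Type} [Enc α] {f : α → List Nm} (hf : Poly f) :
    Poly (fun a => adjL (f a)) := by
  unfold adjL
  refine Poly.map (h := fun p : α × Nm => (((f p.1).zipIdx.filter fun q => p.2.adj q.1).map
    fun q => q.2)) hf ?_
  refine Poly.map (h := fun q : (α × Nm) × (Nm × ℕ) => q.2.2) ?_ Poly.id.snd'.snd'
  refine Poly.filter (h := fun q : (α × Nm) × (Nm × ℕ) => q.1.2.adj q.2.1) ?_ ?_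
  · exact Poly.NPC.zipIdx (hf.comp Poly.fst)
  · exact poly_adj Poly.id.fst'.snd' Poly.id.snd'.fst'

/-- **The reduction is computable in polynomial time.** -/
theorem poly_gr : Poly gr := by
  have h1 : Poly (fun φ => adjL (verts φ)) := poly_adjL poly_verts
  exact h1.congr (fun _ => rfl) fun φ => by
    have h2 : (enc (gr φ) : D) = enc (adjLists (gr φ)) := rfl
    rw [h2, adjLists_gr]

end Pool.Agent.TM2Lib.ABO
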