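import Pool.Agent.TM2Lib.Sat3
import Pool.Agent.ABO.PolyGr
import Pool.Agent.ABO.InNP

/-!
# NP-completeness of the recognition of graphs with Type-A (Type-B) orders
-/

namespace Pool.Agent.TM2Lib.ABO

open Pool.Agent.ABO D
open Pool.Agent.H17T3S (Graph adjLists)

/-- recognition of graphs with a Type-A order -/
noncomputable def PA : NPC.DecProb := ⟨Graph, NPC.code, fun G => ∃ σ, IsTypeA G.2 σ⟩

/-- recognition of graphs with a Type-B order -/
noncomputable def PB : NPC.DecProb := ⟨Graph, NPC.code, fun G => ∃ σ, IsTypeB G.2 σ⟩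

theorem satis_iff (φ : List NPC.Clause) : NPC.Satis φ ↔ H17T3S.Satisfiable φ := Iff.rfl

theorem poly_red : Poly (fun φ : {φ : List NPC.Clause // ∀ c ∈ φ, c.Dist} => gr φ.1) :=
  poly_gr.comp (Poly.of_enc fun _ => rfl)

theorem hard_A : NPC.NPHard PA :=
  NPC.NPHard.of_reduces NPC.sat3_hard (NPC.reduces_of_poly poly_red fun _ =>
    ⟨fun h => complete h, fun ⟨_, hσ⟩ => sound hσ.isTypeB⟩)

theorem hard_B : NPC.NPHard PB :=
  NPC.NPHard.of_reduces NPC.sat3_hard (NPC.reduces_of_poly poly_red fun _ =>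
    ⟨fun h => (complete h).imp fun _ hσ => hσ.isTypeB, fun ⟨_, hσ⟩ => sound hσ⟩)

/-- `P = NP` -/
def PEqNP : Prop := ∀ L : Set (List Bool), NPC.InNP (NPC.Lang L) → NPC.InP (NPC.Lang L)

theorem pEqNP_of_hard {R : NPC.DecProb} (h : NPC.NPHard R) (hP : NPC.InP R) : PEqNP := by
  intro L hL
  obtain ⟨f, hf, hf'⟩ := h L hL
  obtain ⟨g, hg, hg'⟩ := hP
  refine ⟨fun x => g (f x), ?_, fun x => (hg' (f x)).trans (hf' x).symm⟩
  have h3 := NPC.comp_of_polyTime hf
  have h4 := Comp.reindex (NPC.comp_of_polyTime hg) f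
  exact NPC.polyTime_of_comp (h3.trans h4)

/-- the language of strings which, read as adjacency lists, pass the check with some
certificate -/
def LB (B : Bool) : Set (List Bool) :=
  {s | ∃ y : List Bool, y.length ≤ cp.eval s.length ∧
    chk B (NPC.Dec.dec (NPC.parse s)) (NPC.Dec.dec (NPC.parse y)) = true}

theorem inNP_LB (B : Bool) : NPC.InNP (NPC.Lang (LB B)) := by
  refine ⟨fun z : List Bool × List Bool =>
    chk B (NPC.Dec.dec (NPC.parse z.1)) (NPC.Dec.dec (NPC.parse z.2)), cp, ?_, fun x => Iff.rfl⟩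
  have hV : Poly (fun z : List Bool × List Bool =>
      chk B (NPC.Dec.dec (NPC.parse z.1)) (NPC.Dec.dec (NPC.parse z.2))) :=
    poly_chk B (NPC.Dec.poly_dec.comp (NPC.poly_parse Poly.fst))
      (NPC.Dec.poly_dec.comp (NPC.poly_parse Poly.snd))
  have h : Comp (fun z : List Bool × List Bool => NPC.pairCode (z.1, z.2))
      (fun z => D.encD (enc (chk B (NPC.Dec.dec (NPC.parse z.1))
        (NPC.Dec.dec (NPC.parse z.2))))) := by
    refine Comp.congr hV ?_ fun _ => rfl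
    rintro ⟨s, y⟩
    show D.encD (D.cons (enc s) (enc y)) = D.encD (D.cons (D.ofBits s) (D.ofBits y))
    rw [NPC.enc_eq_ofBits, NPC.enc_eq_ofBits]
  have h2 : NPC.PolyTime (fun z : List Bool × List Bool => NPC.pairCode (z.1, z.2)) NPC.bitCode
      (fun z => chk B (NPC.Dec.dec (NPC.parse z.1)) (NPC.Dec.dec (NPC.parse z.2))) :=
    NPC.polyTime_of_comp (NPC.comp_bitCode h)
  exact h2

theorem inP_of_pEqNP (B : Bool) {yes : Graph → Prop}
    (h1 : ∀ G c, chk B (adjLists G) c = true → yes G)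
    (h2 : ∀ G, yes G → ∃ c, sz c ≤ cp.eval (sz G) ∧ chk B (adjLists G) c = true)
    (h : PEqNP) : NPC.InP ⟨Graph, NPC.code, yes⟩ := by
  obtain ⟨f, hf, hf'⟩ := h _ (inNP_LB B)
  refine ⟨fun G : Graph => f (NPC.code G), ?_, fun G => ?_⟩
  · exact NPC.polyTime_of_comp (Comp.reindex (NPC.comp_of_polyTime hf) fun G : Graph => NPC.code G)
  · refine (hf' (NPC.code G)).trans ?_
    have hp : (NPC.Dec.dec (NPC.parse (NPC.code G)) : List (List ℕ)) = adjLists G := by
      have e : NPC.code G = D.encD (enc (adjLists G)) := rfl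
      rw [e, NPC.parse_encD, NPC.Dec.dec_enc]
    constructor
    · rintro ⟨y, -, hy⟩
      rw [hp] at hy
      exact h1 G _ hy
    · intro hG
      obtain ⟨c, hc, hc'⟩ := h2 G hG
      refine ⟨D.encD (enc c), hc, ?_⟩
      rw [hp, NPC.parse_encD, NPC.Dec.dec_enc]
      exact hc'

theorem inP_A_iff : NPC.InP PA ↔ PEqNP := by
  refine ⟨pEqNP_of_hard hard_A, inP_of_pEqNP false ?_ ?_⟩
  · intro G c h
    obtain ⟨ρ, h1, h2⟩ := chk_sound h
    refine typeA_of_rank G.2 ρ h1 fun v => ?_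
    rcases h2 v with h3 | ⟨h3, -⟩
    · exact h3
    · cases h3
  · rintro G ⟨σ, hσ⟩
    obtain ⟨h1, h2⟩ := typeA_rank hσ
    exact ⟨cert σ, sz_cert G σ, chk_complete h1 fun v => Or.inl (h2 v)⟩

theorem inP_B_iff : NPC.InP PB ↔ PEqNP := by
  refine ⟨pEqNP_of_hard hard_B, inP_of_pEqNP true ?_ ?_⟩
  · intro G c h
    obtain ⟨ρ, h1, h2⟩ := chk_sound h
    refine typeB_of_rank G.2 ρ h1 fun v => ?_
    rcases h2 v with h3 | ⟨-, h3⟩
    · exact Or.inl h3
    · exact Or.inr h3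
  · rintro G ⟨σ, hσ⟩
    obtain ⟨h1, h2⟩ := typeB_rank hσ
    refine ⟨cert σ, sz_cert G σ, chk_complete h1 fun v => ?_⟩
    rcases h2 v with h3 | h3
    · exact Or.inl h3
    · exact Or.inr ⟨rfl, h3⟩

end Pool.Agent.TM2Lib.ABO
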