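import Pool.Agent.ABO.Rank

/-!
# Neighbours of the vertices of a clause
-/

namespace Pool.Agent.ABO

open Pool.Agent.TM2Lib Pool.Agent.GridW
open Pool.Agent.H17T3S (Lit Cl CNF3 Holds Satisfiable SAT3 Graph adjLists vars)

/-- neighbours of the vertices of a clause -/
def nb : Nm → List Nm
  | .X _ => []
  | .H c i => [.X (c.lit i), .W c i, .K c i 0, .K c i 1, .K c i 2]
  | .K c i r => [.H c i, .K c i (r + 1), .K c i (r + 2)]
  | .W c i => [.X (c.lit i), .H c i, .C c i]
  | .C c i => if i = 0 then [.W c 0, .C c 1, .C c 2] else [.W c i, .C c 0, .Q c]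
  | .Q c => [.C c 1, .C c 2, .U c]
  | .U c => [.Q c, .V c 0, .V c 1, .V c 2]
  | .V c r => [.U c, .V c (r + 1), .V c (r + 2)]

theorem mem_nb {x y : Nm} {c : Cl} (hx : x.cl = some c) : NG.Adj x y ↔ y ∈ nb x := by
  change Nm.adj x y = true ↔ _
  cases x with
  | X l => simp [Nm.cl] at hx
  | H c' i =>
    cases y <;> simp [Nm.adj, Nm.arc, nb] <;> try tauto
    · rename_i c2 i2 r2
      fin_cases r2 <;> simp <;> tauto
  | K c' i r =>
    cases y <;> simp [Nm.adj, Nm.arc, nb] <;> try tauto
    · rename_i c2 i2 r2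
      fin_cases r <;> fin_cases r2 <;> simp <;> tauto
  | W c' i => cases y <;> simp [Nm.adj, Nm.arc, nb] <;> try tauto
  | C c' i =>
    fin_cases i <;> cases y <;> simp [Nm.adj, Nm.arc, nb] <;> try tauto
    all_goals
      rename_i c2 i2
      fin_cases i2 <;> simp <;> try tauto
  | Q c' =>
    cases y <;> simp [Nm.adj, Nm.arc, nb] <;> try tauto
    · rename_i c2 i2
      fin_cases i2 <;> simp <;> tauto
  | U c' =>
    cases y <;> simp [Nm.adj, Nm.arc, nb] <;> try tauto
    · rename_i c2 i2
      fin_cases i2 <;> simp <;> tauto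
  | V c' r =>
    cases y <;> simp [Nm.adj, Nm.arc, nb] <;> try tauto
    · rename_i c2 r2
      fin_cases r <;> fin_cases r2 <;> simp <;> tauto

theorem nb_verts {φ : CNF3} {x y : Nm} {c : Cl} (hc : c ∈ φ) (hx : x.cl = some c)
    (hy : y ∈ nb x) : y ∈ verts φ := by
  have hv : ∀ i, (c.lit i).1 ∈ vars φ := fun i => mem_vars.2 ⟨c, hc, i, rfl⟩
  have h1 : ∀ i, Nm.X (c.lit i) ∈ verts φ := fun i => X_mem.2 (hv i)
  have h2 : ∀ z : Nm, z.cl = some c → z ∈ verts φ := fun z hz => (mem_of_cl hz).2 hc
  cases x with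
  | X l => simp [Nm.cl] at hx
  | H c' i =>
    simp only [Nm.cl, Option.some.injEq] at hx; subst hx
    simp only [nb, List.mem_cons, List.not_mem_nil, or_false] at hy
    rcases hy with rfl | rfl | rfl | rfl | rfl
    · exact h1 i
    all_goals exact h2 _ rfl
  | K c' i r =>
    simp only [Nm.cl, Option.some.injEq] at hx; subst hx
    simp only [nb, List.mem_cons, List.not_mem_nil, or_false] at hy
    rcases hy with rfl | rfl | rfl <;> exact h2 _ rfl
  | W c' i =>
    simp only [Nm.cl, Option.some.injEq] at hx; subst hx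
    simp only [nb, List.mem_cons, List.not_mem_nil, or_false] at hy
    rcases hy with rfl | rfl | rfl
    · exact h1 i
    all_goals exact h2 _ rfl
  | C c' i =>
    simp only [Nm.cl, Option.some.injEq] at hx; subst hx
    simp only [nb] at hy
    split_ifs at hy <;> simp only [List.mem_cons, List.not_mem_nil, or_false] at hy <;>
      rcases hy with rfl | rfl | rfl <;> exact h2 _ rfl
  | Q c' =>
    simp only [Nm.cl, Option.some.injEq] at hx; subst hx
    simp only [nb, List.mem_cons, List.not_mem_nil, or_false] at hy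
    rcases hy with rfl | rfl | rfl <;> exact h2 _ rfl
  | U c' =>
    simp only [Nm.cl, Option.some.injEq] at hx; subst hx
    simp only [nb, List.mem_cons, List.not_mem_nil, or_false] at hy
    rcases hy with rfl | rfl | rfl | rfl <;> exact h2 _ rfl
  | V c' r =>
    simp only [Nm.cl, Option.some.injEq] at hx; subst hx
    simp only [nb, List.mem_cons, List.not_mem_nil, or_false] at hy
    rcases hy with rfl | rfl | rfl <;> exact h2 _ rfl

theorem nodup_nb (x : Nm) : (nb x).Nodup := by
  cases x with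
  | X l => simp [nb]
  | H c i => simp [nb]
  | K c i r => fin_cases r <;> simp [nb]
  | W c i => simp [nb]
  | C c i => fin_cases i <;> simp [nb]
  | Q c => simp [nb]
  | U c => simp [nb]
  | V c r => fin_cases r <;> simp [nb]

/-- number of neighbours of `x` before `x` -/
def cnt (ρ : Nm → ℕ) (x : Nm) : ℕ := (nb x).countP fun y => decide (ρ y < ρ x)

theorem ncard_pre {φ : CNF3} {ρ : Nm → ℕ} {x : Nm} {c : Cl} (hc : c ∈ φ) (hx : x.cl = some c) :
    (pre φ ρ x).ncard = cnt ρ x := by
  classical
  have h1 : pre φ ρ x = (((nb x).filter fun y => decide (ρ y < ρ x)).toFinset : Set Nm) := by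
    ext y
    simp only [pre, Set.mem_ofPred_eq, List.coe_toFinset, List.mem_filter, decide_eq_true_eq]
    constructor
    · rintro ⟨h1, h2, h3⟩
      exact ⟨(mem_nb hx).1 h2, h3⟩
    · rintro ⟨h1, h2⟩
      exact ⟨nb_verts hc hx h1, (mem_nb hx).2 h1, h2⟩
  rw [h1, Set.ncard_coe_finset, List.toFinset_card_of_nodup ((nodup_nb x).filter _), cnt,
    List.countP_eq_length_filter]

end Pool.Agent.ABO
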