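import Pool.Agent.ABO.Nb

/-!
# A Type-B order of the graph of `φ` gives a satisfying assignment
-/

namespace Pool.Agent.ABO

open Pool.Agent.TM2Lib Pool.Agent.GridW
open Pool.Agent.H17T3S (Lit Cl CNF3 Holds Satisfiable SAT3 Graph adjLists vars)

/-- the condition of Type-B orders at a vertex of a clause -/
def Good (ρ : Nm → ℕ) (x : Nm) : Prop :=
  (Odd (cnt ρ x) ∨ cnt ρ x = 0) ∨ ∀ y ∈ nb x, ρ y < ρ x

/-- in a complete graph on four vertices, three of which are not attached to anything else, the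
fourth vertex has exactly two predecessors -/
theorem k4 {h a b c : ℕ} (hab : a ≠ b) (hac : a ≠ c) (hbc : b ≠ c) (hha : h ≠ a) (hhb : h ≠ b)
    (hhc : h ≠ c)
    (ca : (if h < a then 1 else 0) + (if b < a then 1 else 0) + (if c < a then 1 else 0) ≠ 2)
    (cb : (if h < b then 1 else 0) + (if c < b then 1 else 0) + (if a < b then 1 else 0) ≠ 2)
    (cc : (if h < c then 1 else 0) + (if a < c then 1 else 0) + (if b < c then 1 else 0) ≠ 2) :
    (if a < h then 1 else 0) + (if b < h then 1 else 0) + (if c < h then 1 else 0) = 2 := by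
  split_ifs at * <;> omega

/-- the count at a vertex of degree three -/
theorem cnt3 {ρ : Nm → ℕ} {x a b c : Nm} (h : nb x = [a, b, c]) :
    cnt ρ x = (if ρ a < ρ x then 1 else 0) + (if ρ b < ρ x then 1 else 0) +
      (if ρ c < ρ x then 1 else 0) := by
  simp only [cnt, h, List.countP_cons, List.countP_nil, decide_eq_true_eq]
  ring

theorem cnt4 {ρ : Nm → ℕ} {x a b c d : Nm} (h : nb x = [a, b, c, d]) :
    cnt ρ x = (if ρ a < ρ x then 1 else 0) + ((if ρ b < ρ x then 1 else 0) +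
      (if ρ c < ρ x then 1 else 0) + (if ρ d < ρ x then 1 else 0)) := by
  simp only [cnt, h, List.countP_cons, List.countP_nil, decide_eq_true_eq]
  ring

theorem cnt5 {ρ : Nm → ℕ} {x a b c d e : Nm} (h : nb x = [a, b, c, d, e]) :
    cnt ρ x = (if ρ a < ρ x then 1 else 0) + (if ρ b < ρ x then 1 else 0) +
      ((if ρ c < ρ x then 1 else 0) + (if ρ d < ρ x then 1 else 0) +
        (if ρ e < ρ x then 1 else 0)) := by
  simp only [cnt, h, List.countP_cons, List.countP_nil, decide_eq_true_eq]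
  ring

/-- a vertex of degree three does not have exactly two predecessors -/
theorem good3 {ρ : Nm → ℕ} {x a b c : Nm} (h : nb x = [a, b, c]) (hg : Good ρ x) :
    (if ρ a < ρ x then 1 else 0) + (if ρ b < ρ x then 1 else 0) +
      (if ρ c < ρ x then 1 else 0) ≠ 2 := by
  rw [← cnt3 h]
  rcases hg with (hg | hg) | hg
  · intro h2
    rw [h2] at hg
    exact absurd hg (by decide)
  · omega
  · rw [h] at hg
    have h1 := hg a (by simp)
    have h2 := hg b (by simp)
    have h3 := hg c (by simp)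
    rw [cnt3 h, if_pos h1, if_pos h2, if_pos h3]
    omega

section

variable {φ : CNF3} {ρ : Nm → ℕ} (hd : ∀ x ∈ verts φ, ∀ y ∈ verts φ, NG.Adj x y → ρ x ≠ ρ y)
  (hg : ∀ x ∈ verts φ, (Odd (pre φ ρ x).ncard ∨ (pre φ ρ x).ncard = 0) ∨
    ∀ y ∈ verts φ, NG.Adj x y → ρ y < ρ x)

include hg in
theorem good {c : Cl} {x : Nm} (hc : c ∈ φ) (hx : x.cl = some c) : Good ρ x := by
  rcases hg x ((mem_of_cl hx).2 hc) with h | h
  · left
    rwa [ncard_pre hc hx] at h
  · right
    intro y hy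
    exact h y (nb_verts hc hx hy) ((mem_nb hx).2 hy)

include hd in
theorem dist {c : Cl} {x y : Nm} (hc : c ∈ φ) (hx : x.cl = some c) (hy : y ∈ nb x) :
    ρ x ≠ ρ y :=
  hd x ((mem_of_cl hx).2 hc) y (nb_verts hc hx hy) ((mem_nb hx).2 hy)

include hd hg in
theorem k_two {c : Cl} (hc : c ∈ φ) (i : Fin 3) :
    (if ρ (.K c i 0) < ρ (.H c i) then 1 else 0) + (if ρ (.K c i 1) < ρ (.H c i) then 1 else 0) +
      (if ρ (.K c i 2) < ρ (.H c i) then 1 else 0) = 2 := by
  have e0 : nb (.K c i 0) = [.H c i, .K c i 1, .K c i 2] := rfl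
  have e1 : nb (.K c i 1) = [.H c i, .K c i 2, .K c i 0] := rfl
  have e2 : nb (.K c i 2) = [.H c i, .K c i 0, .K c i 1] := rfl
  refine k4 ?_ ?_ ?_ ?_ ?_ ?_ (good3 e0 (good hg hc rfl)) (good3 e1 (good hg hc rfl))
    (good3 e2 (good hg hc rfl))
  · exact dist hd hc rfl (by rw [e0]; simp)
  · exact dist hd hc rfl (by rw [e0]; simp)
  · exact dist hd hc rfl (by rw [e1]; simp)
  · exact (dist hd hc rfl (by rw [e0]; simp)).symm
  · exact (dist hd hc rfl (by rw [e1]; simp)).symm
  · exact (dist hd hc rfl (by rw [e2]; simp)).symm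

include hd hg in
theorem v_two {c : Cl} (hc : c ∈ φ) :
    (if ρ (.V c 0) < ρ (.U c) then 1 else 0) + (if ρ (.V c 1) < ρ (.U c) then 1 else 0) +
      (if ρ (.V c 2) < ρ (.U c) then 1 else 0) = 2 := by
  have e0 : nb (.V c 0) = [.U c, .V c 1, .V c 2] := rfl
  have e1 : nb (.V c 1) = [.U c, .V c 2, .V c 0] := rfl
  have e2 : nb (.V c 2) = [.U c, .V c 0, .V c 1] := rfl
  refine k4 ?_ ?_ ?_ ?_ ?_ ?_ (good3 e0 (good hg hc rfl)) (good3 e1 (good hg hc rfl))
    (good3 e2 (good hg hc rfl))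
  · exact dist hd hc rfl (by rw [e0]; simp)
  · exact dist hd hc rfl (by rw [e0]; simp)
  · exact dist hd hc rfl (by rw [e1]; simp)
  · exact (dist hd hc rfl (by rw [e0]; simp)).symm
  · exact (dist hd hc rfl (by rw [e1]; simp)).symm
  · exact (dist hd hc rfl (by rw [e2]; simp)).symm

include hd hg in
/-- `H` lies between `X` and `W` -/
theorem between {c : Cl} (hc : c ∈ φ) (i : Fin 3) :
    (ρ (.X (c.lit i)) < ρ (.H c i) ∧ ρ (.H c i) < ρ (.W c i)) ∨
      (ρ (.W c i) < ρ (.H c i) ∧ ρ (.H c i) < ρ (.X (c.lit i))) := by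
  have h2 := k_two hd hg hc i
  have e : nb (.H c i) = [.X (c.lit i), .W c i, .K c i 0, .K c i 1, .K c i 2] := rfl
  have h3 := cnt5 (ρ := ρ) e
  rw [h2] at h3
  have d1 : ρ (.H c i) ≠ ρ (.X (c.lit i)) := dist hd hc rfl (by rw [e]; simp)
  have d2 : ρ (.H c i) ≠ ρ (.W c i) := dist hd hc rfl (by rw [e]; simp)
  have hodd : Odd (cnt ρ (.H c i)) := by
    rcases good hg hc (x := .H c i) rfl with (h | h) | h
    · exact h
    · rw [h] at h3; omega
    · rw [e] at h
      have g0 := h (.K c i 0) (by simp)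
      have g1 := h (.K c i 1) (by simp)
      have g2 := h (.K c i 2) (by simp)
      rw [if_pos g0, if_pos g1, if_pos g2] at h2
      omega
  rw [h3] at hodd
  split_ifs at hodd with h4 h5 h5
  · exact absurd hodd (by decide)
  · left; exact ⟨h4, by omega⟩
  · right; exact ⟨h5, by omega⟩
  · exact absurd hodd (by decide)

include hd hg in
theorem q_lt_u {c : Cl} (hc : c ∈ φ) : ρ (.Q c) < ρ (.U c) := by
  have h2 := v_two hd hg hc
  have e : nb (.U c) = [.Q c, .V c 0, .V c 1, .V c 2] := rfl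
  have h3 := cnt4 (ρ := ρ) e
  rw [h2] at h3
  by_contra h4
  rw [if_neg h4] at h3
  rcases good hg hc (x := .U c) rfl with (h | h) | h
  · rw [h3] at h
    exact absurd h (by decide)
  · omega
  · exact h4 (h _ (by rw [e]; simp))

/-- the opposite literal -/
def neg (l : Lit) : Lit := (l.1, !l.2)

theorem adj_neg (l : Lit) : NG.Adj (.X l) (.X (neg l)) := by
  change Nm.adj _ _ = true
  simp [Nm.adj, Nm.arc, neg]

/-- exchanges `H` and `W` -/
def swp : Nm → Nm
  | .H c i => .W c i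
  | .W c i => .H c i
  | x => x

include hd hg in
/-- the number of predecessors of `X l` is even if `X l` is placed before `X (neg l)` -/
theorem even_pre {l : Lit} (hlt : ρ (.X l) < ρ (.X (neg l))) :
    Even (pre φ ρ (.X l)).ncard := by
  classical
  set A : Set Nm := {y | y ∈ pre φ ρ (.X l) ∧ ∃ c i, y = .H c i} with hA
  have hkey : ∀ c i, c ∈ φ → c.lit i = l → (ρ (.H c i) < ρ (.X l) ↔ ρ (.W c i) < ρ (.X l)) := by
    intro c i hc hl
    have := between hd hg hc i
    rw [hl] at this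
    omega
  have hform : ∀ y ∈ pre φ ρ (.X l), ∃ c i, c ∈ φ ∧ c.lit i = l ∧ (y = .H c i ∨ y = .W c i) := by
    rintro y ⟨h1, h2, h3⟩
    change Nm.adj _ _ = true at h2
    cases y with
    | X l' =>
      exfalso
      simp only [Nm.adj, Nm.arc, Bool.or_eq_true, decide_eq_true_eq] at h2
      have : l' = neg l := by
        obtain ⟨z, b⟩ := l
        obtain ⟨z', b'⟩ := l'
        rcases h2 with ⟨h4, h5⟩ | ⟨h4, h5⟩
        · simp only at h4 h5
          subst h4
          cases b <;> cases b' <;> simp_all [neg]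
        · simp only at h4 h5
          subst h4
          cases b <;> cases b' <;> simp_all [neg]
      rw [this] at h3
      omega
    | H c i =>
      simp only [Nm.adj, Nm.arc, Bool.false_or, decide_eq_true_eq] at h2
      exact ⟨c, i, (mem_of_cl rfl).1 h1, h2, Or.inl rfl⟩
    | W c i =>
      simp only [Nm.adj, Nm.arc, Bool.false_or, decide_eq_true_eq] at h2
      exact ⟨c, i, (mem_of_cl rfl).1 h1, h2, Or.inr rfl⟩
    | K c i r => simp [Nm.adj, Nm.arc] at h2
    | C c i => simp [Nm.adj, Nm.arc] at h2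
    | Q c => simp [Nm.adj, Nm.arc] at h2
    | U c => simp [Nm.adj, Nm.arc] at h2
    | V c r => simp [Nm.adj, Nm.arc] at h2
  have hadjH : ∀ c i, c.lit i = l → NG.Adj (.X l) (.H c i) := by
    intro c i h
    change Nm.adj _ _ = true
    simp [Nm.adj, Nm.arc, h]
  have hadjW : ∀ c i, c.lit i = l → NG.Adj (.X l) (.W c i) := by
    intro c i h
    change Nm.adj _ _ = true
    simp [Nm.adj, Nm.arc, h]
  have hpre : pre φ ρ (.X l) = A ∪ swp '' A := by
    ext y
    constructor
    · intro hy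
      obtain ⟨c, i, hc, hl, rfl | rfl⟩ := hform y hy
      · exact Or.inl ⟨hy, c, i, rfl⟩
      · right
        refine ⟨.H c i, ⟨⟨(mem_of_cl rfl).2 hc, hadjH c i hl, ?_⟩, c, i, rfl⟩, rfl⟩
        exact (hkey c i hc hl).2 hy.2.2
    · rintro (hy | ⟨x, ⟨hx, c, i, rfl⟩, rfl⟩)
      · exact hy.1
      · obtain ⟨c', i', hc, hl, h | h⟩ := hform _ hx
        · injection h with h1 h2
          subst h1 h2
          exact ⟨(mem_of_cl rfl).2 hc, hadjW c i hl, (hkey c i hc hl).1 hx.2.2⟩
        · cases h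
  have hfin : A.Finite := (pre_finite φ ρ _).subset fun y hy => hy.1
  have hdisj : Disjoint A (swp '' A) := by
    rw [Set.disjoint_left]
    rintro y ⟨-, c, i, rfl⟩ ⟨x, ⟨-, c', i', rfl⟩, h⟩
    cases h
  have hinj : Set.InjOn swp A := by
    rintro x ⟨-, c, i, rfl⟩ y ⟨-, c', i', rfl⟩ h
    simp only [swp, Nm.W.injEq] at h
    rw [h.1, h.2]
  rw [hpre, Set.ncard_union_eq hdisj hfin (hfin.image _), Set.ncard_image_of_injOn hinj]
  exact ⟨_, rfl⟩

include hd hg in
/-- a false literal does not help its clause -/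
theorem c_lt_w {c : Cl} (hc : c ∈ φ) (i : Fin 3)
    (hlt : ρ (.X (c.lit i)) < ρ (.X (neg (c.lit i)))) : ρ (.C c i) < ρ (.W c i) := by
  have hv : (c.lit i).1 ∈ vars φ := mem_vars.2 ⟨c, hc, i, rfl⟩
  have hX : Nm.X (c.lit i) ∈ verts φ := X_mem.2 hv
  have hX' : Nm.X (neg (c.lit i)) ∈ verts φ := X_mem.2 hv
  have heven := even_pre hd hg hlt
  have h0 : (pre φ ρ (.X (c.lit i))).ncard = 0 := by
    rcases hg _ hX with (h | h) | h
    · exact absurd heven (Nat.not_even_iff_odd.2 h)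
    · exact h
    · exact absurd (h _ hX' (adj_neg _)) (by omega)
  rw [Set.ncard_eq_zero (pre_finite φ ρ _)] at h0
  have hW : ¬ ρ (.W c i) < ρ (.X (c.lit i)) := by
    intro h
    have : Nm.W c i ∈ pre φ ρ (.X (c.lit i)) := by
      refine ⟨(mem_of_cl rfl).2 hc, ?_, h⟩
      change Nm.adj _ _ = true
      simp [Nm.adj, Nm.arc]
    rw [h0] at this
    exact this
  rcases between hd hg hc i with ⟨h1, h2⟩ | ⟨h1, h2⟩
  · have e : nb (.W c i) = [.X (c.lit i), .H c i, .C c i] := rfl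
    have h3 := good3 e (good hg hc rfl)
    rw [if_pos (h1.trans h2), if_pos h2] at h3
    by_contra h4
    rw [if_neg h4] at h3
    exact h3 rfl
  · omega

include hd hg in
/-- some literal vertex precedes its clause vertex -/
theorem clause_ok {c : Cl} (hc : c ∈ φ) : ∃ i, ¬ ρ (.C c i) < ρ (.W c i) := by
  by_contra hcon
  push Not at hcon
  have e0 : nb (.C c 0) = [.W c 0, .C c 1, .C c 2] := rfl
  have e1 : nb (.C c 1) = [.W c 1, .C c 0, .Q c] := rfl
  have e2 : nb (.C c 2) = [.W c 2, .C c 0, .Q c] := rfl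
  have eq : nb (.Q c) = [.C c 1, .C c 2, .U c] := rfl
  have g0 := good3 e0 (good hg hc rfl)
  have g1 := good3 e1 (good hg hc rfl)
  have g2 := good3 e2 (good hg hc rfl)
  have gq := good3 eq (good hg hc rfl)
  have w0 := hcon 0
  have w1 := hcon 1
  have w2 := hcon 2
  have u := q_lt_u hd hg hc
  rw [if_neg (by omega : ¬ ρ (.W c 0) < ρ (.C c 0))] at g0
  rw [if_neg (by omega : ¬ ρ (.W c 1) < ρ (.C c 1))] at g1
  rw [if_neg (by omega : ¬ ρ (.W c 2) < ρ (.C c 2))] at g2
  rw [if_neg (by omega : ¬ ρ (.U c) < ρ (.Q c))] at gq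
  have d01 : ρ (.C c 0) ≠ ρ (.C c 1) := dist hd hc rfl (by rw [e0]; simp)
  have d02 : ρ (.C c 0) ≠ ρ (.C c 2) := dist hd hc rfl (by rw [e0]; simp)
  have dq1 : ρ (.C c 1) ≠ ρ (.Q c) := dist hd hc rfl (by rw [e1]; simp)
  have dq2 : ρ (.C c 2) ≠ ρ (.Q c) := dist hd hc rfl (by rw [e2]; simp)
  have f : ∀ p q : Prop, ∀ [Decidable p] [Decidable q],
      0 + (if p then 1 else 0) + (if q then 1 else 0) ≠ 2 → ¬ (p ∧ q) := by
    intro p q _ _ h hpq
    rw [if_pos hpq.1, if_pos hpq.2] at h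
    exact h rfl
  have g0' := f _ _ g0
  have g1' := f _ _ g1
  have g2' := f _ _ g2
  have gq' : ¬ (ρ (.C c 1) < ρ (.Q c) ∧ ρ (.C c 2) < ρ (.Q c)) := by
    intro hpq
    rw [if_pos hpq.1, if_pos hpq.2] at gq
    exact gq rfl
  omega

include hd hg in
theorem satisfiable : Satisfiable φ := by
  refine ⟨fun z => decide (ρ (.X (z, false)) < ρ (.X (z, true))), fun c hc => ?_⟩
  obtain ⟨i, hi⟩ := clause_ok hd hg hc
  have hv : (c.lit i).1 ∈ vars φ := mem_vars.2 ⟨c, hc, i, rfl⟩
  have key : decide (ρ (.X ((c.lit i).1, false)) < ρ (.X ((c.lit i).1, true))) = (c.lit i).2 := by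
    have h1 : ¬ ρ (.X (c.lit i)) < ρ (.X (neg (c.lit i))) := fun h => hi (c_lt_w hd hg hc i h)
    have h2 : ρ (.X (c.lit i)) ≠ ρ (.X (neg (c.lit i))) :=
      hd _ (X_mem.2 hv) _ (X_mem.2 hv) (adj_neg _)
    rcases h : c.lit i with ⟨z, b⟩
    rw [h] at h1 h2
    cases b
    · simp only [neg, Bool.not_false] at h1 h2
      simp only [decide_eq_false_iff_not, not_lt]
      omega
    · simp only [neg, Bool.not_true] at h1 h2
      simp only [decide_eq_true_eq]
      omega
  unfold Holds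
  fin_cases i
  · exact Or.inl key
  · exact Or.inr (Or.inl key)
  · exact Or.inr (Or.inr key)

end

/-- **Soundness of the reduction.** -/
theorem sound {φ : CNF3} {σ : Equiv.Perm (Fin (gr φ).1)} (h : IsTypeB (gr φ).2 σ) :
    Satisfiable φ := by
  obtain ⟨ρ, h1, h2⟩ := gr_typeB h
  exact satisfiable h1 h2

end Pool.Agent.ABO
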